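import Mathlib

/-! # [NP-NEAR] A root close to a point where the polynomial is small and its derivative is not

`p ≠ 0` splits: `p = c ∏ (X - θ_i)`. Let `θ` be a root with `δ = ‖z - θ‖` minimal (there is a root:
otherwise `p` is constant and `p' = 0`). By induction on the multiset of roots: if
`δ ≤ ‖z - θ_i‖` for all `i` and `p = c ∏ (X - θ_i)` then `δ ‖p'(z)‖ ≤ #roots * ‖p(z)‖`
(`p = (X - θ₁) q`, `p' = q + (X - θ₁) q'`,
`δ ‖p'(z)‖ ≤ δ ‖q(z)‖ + ‖z - θ₁‖ δ ‖q'(z)‖ ≤ ‖z - θ₁‖ ‖q(z)‖ (1 + #roots of q)`). -/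

namespace Pool.Agent.H8.NoPt

open Polynomial

theorem near_aux (z : ℂ) (δ : ℝ) (hδ : 0 ≤ δ) (s : Multiset ℂ) :
    (∀ θ ∈ s, δ ≤ ‖z - θ‖) →
    δ * ‖(derivative ((s.map (fun a => X - C a)).prod)).eval z‖ ≤
      (Multiset.card s : ℝ) * ‖((s.map (fun a => X - C a)).prod).eval z‖ := by
  induction s using Multiset.induction_on with
  | empty => intro _; simp
  | cons a s ih =>
    intro h
    have ha : δ ≤ ‖z - a‖ := h a (Multiset.mem_cons_self a s)
    have ih' := ih (fun θ hθ => h θ (Multiset.mem_cons_of_mem hθ))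
    set q : ℂ[X] := (s.map (fun a => X - C a)).prod with hq
    have h1 : ((a ::ₘ s).map (fun a => X - C a)).prod = (X - C a) * q := by
      rw [Multiset.map_cons, Multiset.prod_cons]
    rw [h1, derivative_mul]
    have h2 : derivative (X - C a : ℂ[X]) = 1 := by simp
    rw [h2, one_mul, eval_add, eval_mul, eval_mul]
    have h3 : (X - C a : ℂ[X]).eval z = z - a := by simp
    rw [h3, norm_mul, Multiset.card_cons]
    have h4 : ‖q.eval z + (z - a) * (derivative q).eval z‖ ≤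
        ‖q.eval z‖ + ‖z - a‖ * ‖(derivative q).eval z‖ := by
      calc _ ≤ ‖q.eval z‖ + ‖(z - a) * (derivative q).eval z‖ := norm_add_le _ _
        _ = _ := by rw [norm_mul]
    have hq0 : 0 ≤ ‖q.eval z‖ := norm_nonneg _
    have hz0 : 0 ≤ ‖z - a‖ := norm_nonneg _
    have h5 : δ * ‖q.eval z‖ ≤ ‖z - a‖ * ‖q.eval z‖ := mul_le_mul_of_nonneg_right ha hq0
    have h6 : ‖z - a‖ * (δ * ‖(derivative q).eval z‖) ≤
        ‖z - a‖ * ((Multiset.card s : ℝ) * ‖q.eval z‖) := mul_le_mul_of_nonneg_left ih' hz0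
    calc δ * ‖q.eval z + (z - a) * (derivative q).eval z‖
        ≤ δ * (‖q.eval z‖ + ‖z - a‖ * ‖(derivative q).eval z‖) :=
          mul_le_mul_of_nonneg_left h4 hδ
      _ = δ * ‖q.eval z‖ + ‖z - a‖ * (δ * ‖(derivative q).eval z‖) := by ring
      _ ≤ ‖z - a‖ * ‖q.eval z‖ + ‖z - a‖ * ((Multiset.card s : ℝ) * ‖q.eval z‖) :=
          add_le_add h5 h6
      _ = ((Multiset.card s + 1 : ℕ) : ℝ) * (‖z - a‖ * ‖q.eval z‖) := by push_cast; ring

theorem near_root (p : ℂ[X]) (z : ℂ) (h : (derivative p).eval z ≠ 0) :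
    ∃ θ : ℂ, p.IsRoot θ ∧ ‖z - θ‖ * ‖(derivative p).eval z‖ ≤ p.natDegree * ‖p.eval z‖ := by
  have hp0 : p ≠ 0 := by
    rintro rfl
    simp at h
  have hdeg : p.degree ≠ 0 := by
    intro hd
    rw [Polynomial.eq_C_of_degree_eq_zero hd] at h
    simp at h
  have hs : Splits p := IsAlgClosed.splits p
  have hcard : Multiset.card p.roots = p.natDegree := (splits_iff_card_roots.mp hs)
  obtain ⟨θ₀, hθ₀⟩ := IsAlgClosed.exists_root p hdeg
  have hne : p.roots.toFinset.Nonempty := by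
    refine ⟨θ₀, ?_⟩
    rw [Multiset.mem_toFinset, mem_roots hp0]
    exact hθ₀
  obtain ⟨θ, hθ, hmin⟩ := Finset.exists_min_image p.roots.toFinset (fun t => ‖z - t‖) hne
  rw [Multiset.mem_toFinset, mem_roots hp0] at hθ
  refine ⟨θ, hθ, ?_⟩
  have key := near_aux z (‖z - θ‖) (norm_nonneg _) p.roots (fun t ht =>
    hmin t (Multiset.mem_toFinset.mpr ht))
  have hprod : C p.leadingCoeff * (p.roots.map (fun a => X - C a)).prod = p :=
    C_leadingCoeff_mul_prod_multiset_X_sub_C hcard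
  set q : ℂ[X] := (p.roots.map (fun a => X - C a)).prod with hq
  have e1 : p.eval z = p.leadingCoeff * q.eval z := by
    conv_lhs => rw [← hprod]
    rw [eval_mul, eval_C]
  have e2 : (derivative p).eval z = p.leadingCoeff * (derivative q).eval z := by
    conv_lhs => rw [← hprod]
    rw [derivative_C_mul, eval_mul, eval_C]
  rw [e1, e2, norm_mul, norm_mul, ← hcard]
  have hc0 : 0 ≤ ‖p.leadingCoeff‖ := norm_nonneg _
  calc ‖z - θ‖ * (‖p.leadingCoeff‖ * ‖(derivative q).eval z‖)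
      = ‖p.leadingCoeff‖ * (‖z - θ‖ * ‖(derivative q).eval z‖) := by ring
    _ ≤ ‖p.leadingCoeff‖ * ((Multiset.card p.roots : ℝ) * ‖q.eval z‖) :=
        mul_le_mul_of_nonneg_left key hc0
    _ = _ := by ring

end Pool.Agent.H8.NoPt
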