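import Pool.Agent.H8.NoPt.Defs
import Pool.Agent.H8.NoPt.Near

/-! # [NP-ASYM] Integer points with `|F(x,y)| ≤ H`, `|y| ≤ |x|`, lie close to an asymptote

Write `b = 8^n`, `f = hp n F`, `f_d = hp d F`, `z₀ = y/x`, `|z₀| ≤ 1`, `X = |x| ≥ b³ M²`.
For `‖z‖, ‖z'‖ ≤ 2` and `d ≤ n`: `‖f_d(z)‖ ≤ (d+1) H` if `‖z‖ ≤ 1`, and `≤ b H` if `‖z‖ ≤ 2`;
`‖f_d(z) - f_d(z')‖ ≤ b H ‖z - z'‖`, `‖f_d'(z) - f_d'(z')‖ ≤ b H ‖z - z'‖`,
`‖f(z) - f(z') - f'(z')(z - z')‖ ≤ b H ‖z - z'‖²` (termwise: `|z^j - z'^j| ≤ j 2^(j-1) |z - z'|`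
etc.; coefficients `≤ H`; `∑_{j≤n} j² 2^j ≤ 8^n`).
(1) `ev n F x y = ∑_{d≤n} x^d f_d(z₀)`. So
`‖f(z₀)‖ ≤ (H + ∑_{d<n} (d+1) H X^d) / X^n ≤ (n²+1) H / X ≤ b H / X < H / M²` (as
`X ≥ b³ M² > b M²`), so `Simp` gives `‖f'(z₀)‖ ≥ H / M` (`z₀` is real, `|z₀| ≤ 1`).
(2) `near_root`: a root `θ` with `‖z₀ - θ‖ ≤ n ‖f(z₀)‖ / ‖f'(z₀)‖ ≤ n b M / X ≤ 1`; so
`‖θ‖ ≤ 2`, `‖f'(θ)‖ ≥ H/M - b H n b M / X ≥ H / (2M)` since `X ≥ 2 n b² M²` (`2n ≤ b`).
(3) `w = y - θ x = x (z₀ - θ)`, `‖w‖ ≤ n b M`. From `ev n F x y = x^n f(z₀) + x^(n-1) f_{n-1}(z₀)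
+ ∑_{d≤n-2} x^d f_d(z₀)`, `f(z₀) = f'(θ) w/x + R₁`, `‖R₁‖ ≤ b H ‖w‖²/X²`,
`f_{n-1}(z₀) = f_{n-1}(θ) + R₂`, `‖R₂‖ ≤ b H ‖w‖/X`:
`‖f'(θ) w + f_{n-1}(θ)‖ ≤ H/X^(n-1) + b H ‖w‖²/X + b H ‖w‖/X + n² H/X
≤ (H/X) 4 b (n b M)²`, hence (divide by `‖f'(θ)‖ ≥ H/(2M)`)
`‖w - bet n F θ‖ ≤ 8 n² b³ M³ / X ≤ b⁵ M³ / X`. -/

namespace Pool.Agent.H8.NoPt

open Finset Polynomial Pool.Agent.H72.ES

namespace AsymAux

theorem hp_eval (d : ℕ) (F : ℕ → ℕ → ℤ) (z : ℂ) :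
    (hp d F).eval z = ∑ j ∈ range (d + 1), (F (d - j) j : ℂ) * z ^ j := by
  simp [hp, lead, Polynomial.map_sum, eval_finsetSum]

theorem hp_der (d : ℕ) (F : ℕ → ℕ → ℤ) (z : ℂ) :
    (derivative (hp d F)).eval z =
      ∑ j ∈ range (d + 1), (F (d - j) j : ℂ) * ((j : ℂ) * z ^ (j - 1)) := by
  simp [hp, lead, Polynomial.map_sum, eval_finsetSum, derivative_X_pow]

theorem sum_sq_two (n : ℕ) : ∑ j ∈ range (n + 1), (j : ℝ) ^ 2 * 2 ^ j ≤ 8 ^ n := by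
  induction n with
  | zero => simp
  | succ n ih =>
    rw [Finset.sum_range_succ]
    have h1 : n + 1 ≤ 2 ^ n := Nat.lt_two_pow_self
    have h2 : ((n : ℝ) + 1) ≤ 2 ^ n := by exact_mod_cast h1
    have h3 : ((n : ℝ) + 1) ^ 2 ≤ (2 ^ n) ^ 2 := pow_le_pow_left₀ (by positivity) h2 2
    have h4 : (8 : ℝ) ^ n = 2 ^ n * (2 ^ n) ^ 2 := by
      rw [← pow_mul, ← pow_add, show (8 : ℝ) = 2 ^ 3 by norm_num, ← pow_mul]
      congr 1
      ring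
    have h5 : (0 : ℝ) < 2 ^ n := by positivity
    have h6 : (2 : ℝ) ^ n * ((n : ℝ) + 1) ^ 2 ≤ 2 ^ n * (2 ^ n) ^ 2 :=
      mul_le_mul_of_nonneg_left h3 h5.le
    push_cast
    rw [pow_succ (8 : ℝ) n, pow_succ (2 : ℝ) n]
    have h7 : (0 : ℝ) < 8 ^ n := by positivity
    nlinarith

theorem pow_lip (j : ℕ) (z w : ℂ) (hz : ‖z‖ ≤ 2) (hw : ‖w‖ ≤ 2) :
    ‖z ^ j - w ^ j‖ ≤ (j : ℝ) * 2 ^ j * ‖z - w‖ := by
  induction j with
  | zero => simp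
  | succ j ih =>
    have e : z ^ (j + 1) - w ^ (j + 1) = z * (z ^ j - w ^ j) + w ^ j * (z - w) := by ring
    rw [e]
    refine (norm_add_le _ _).trans ?_
    rw [norm_mul, norm_mul, norm_pow]
    have h1 : ‖w‖ ^ j ≤ 2 ^ j := pow_le_pow_left₀ (norm_nonneg _) hw j
    have h2 : ‖z‖ * ‖z ^ j - w ^ j‖ ≤ 2 * ((j : ℝ) * 2 ^ j * ‖z - w‖) := by
      gcongr
    have h3 : ‖w‖ ^ j * ‖z - w‖ ≤ 2 ^ j * ‖z - w‖ := by gcongr
    have h4 : 0 ≤ (2 : ℝ) ^ j * ‖z - w‖ := by positivity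
    push_cast
    rw [pow_succ]
    nlinarith

theorem pow_lip' (j : ℕ) (z w : ℂ) (hz : ‖z‖ ≤ 2) (hw : ‖w‖ ≤ 2) :
    ‖z ^ j - w ^ j‖ ≤ (j : ℝ) ^ 2 * 2 ^ j * ‖z - w‖ := by
  refine (pow_lip j z w hz hw).trans ?_
  have h : (j : ℝ) ≤ (j : ℝ) ^ 2 := by
    have : j ≤ j ^ 2 := Nat.le_self_pow (by norm_num) j
    exact_mod_cast this
  gcongr

theorem der_lip (j : ℕ) (z w : ℂ) (hz : ‖z‖ ≤ 2) (hw : ‖w‖ ≤ 2) :
    ‖(j : ℂ) * z ^ (j - 1) - (j : ℂ) * w ^ (j - 1)‖ ≤ (j : ℝ) ^ 2 * 2 ^ j * ‖z - w‖ := by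
  rw [← mul_sub, norm_mul, Complex.norm_natCast]
  rcases j with _ | j
  · simp
  · have h1 := pow_lip j z w hz hw
    simp only [Nat.add_sub_cancel]
    have h2 : (j : ℝ) * 2 ^ j * ‖z - w‖ ≤ ((j + 1 : ℕ) : ℝ) * 2 ^ (j + 1) * ‖z - w‖ := by
      gcongr
      · omega
      · norm_num
      · omega
    calc ((j + 1 : ℕ) : ℝ) * ‖z ^ j - w ^ j‖ ≤
        ((j + 1 : ℕ) : ℝ) * (((j + 1 : ℕ) : ℝ) * 2 ^ (j + 1) * ‖z - w‖) := by
          gcongr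
          exact h1.trans h2
      _ = _ := by ring

theorem pow_tay (j : ℕ) (z w : ℂ) (hz : ‖z‖ ≤ 2) (hw : ‖w‖ ≤ 2) :
    ‖z ^ j - w ^ j - (j : ℂ) * w ^ (j - 1) * (z - w)‖ ≤ (j : ℝ) ^ 2 * 2 ^ j * ‖z - w‖ ^ 2 := by
  induction j with
  | zero => simp
  | succ j ih =>
    have e : z ^ (j + 1) - w ^ (j + 1) - ((j + 1 : ℕ) : ℂ) * w ^ (j + 1 - 1) * (z - w) =
        z * (z ^ j - w ^ j - (j : ℂ) * w ^ (j - 1) * (z - w)) +
          (j : ℂ) * w ^ (j - 1) * (z - w) ^ 2 := by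
      rcases j with _ | j
      · simp
      · simp only [Nat.add_sub_cancel]
        push_cast
        ring
    rw [e]
    refine (norm_add_le _ _).trans ?_
    rw [norm_mul, norm_mul, norm_mul, norm_pow, norm_pow, Complex.norm_natCast]
    have h1 : ‖w‖ ^ (j - 1) ≤ 2 ^ j :=
      (pow_le_pow_left₀ (norm_nonneg _) hw _).trans
        (pow_le_pow_right₀ (by norm_num) (Nat.sub_le _ _))
    have h2 : ‖z‖ * ‖z ^ j - w ^ j - (j : ℂ) * w ^ (j - 1) * (z - w)‖ ≤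
        2 * ((j : ℝ) ^ 2 * 2 ^ j * ‖z - w‖ ^ 2) := by
      gcongr
    have h3 : (j : ℝ) * ‖w‖ ^ (j - 1) * ‖z - w‖ ^ 2 ≤ (j : ℝ) * 2 ^ j * ‖z - w‖ ^ 2 := by gcongr
    have h4 : 0 ≤ (2 : ℝ) ^ j * ‖z - w‖ ^ 2 := by positivity
    have h5 : 0 ≤ (j : ℝ) * ((2 : ℝ) ^ j * ‖z - w‖ ^ 2) := by positivity
    push_cast
    rw [pow_succ (2 : ℝ) j]
    nlinarith

theorem coef_le {n H d j : ℕ} {F : ℕ → ℕ → ℤ} (hF : Bdd n H F) (hd : d ≤ n)
    (hj : j ∈ range (d + 1)) : ‖(F (d - j) j : ℂ)‖ ≤ H := by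
  have := Finset.mem_range.1 hj
  have h := hF (d - j) j (by omega)
  rw [Complex.norm_intCast]
  exact_mod_cast h

/-- a general comparison -/
theorem sum_bd {n H d : ℕ} {F : ℕ → ℕ → ℤ} (hF : Bdd n H F) (hd : d ≤ n) (g : ℕ → ℂ) (D : ℝ)
    (hD : 0 ≤ D) (hg : ∀ j, ‖g j‖ ≤ (j : ℝ) ^ 2 * 2 ^ j * D) :
    ‖∑ j ∈ range (d + 1), (F (d - j) j : ℂ) * g j‖ ≤ 8 ^ n * H * D := by
  calc ‖∑ j ∈ range (d + 1), (F (d - j) j : ℂ) * g j‖
      ≤ ∑ j ∈ range (d + 1), ‖(F (d - j) j : ℂ) * g j‖ := norm_sum_le _ _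
    _ ≤ ∑ j ∈ range (d + 1), (H : ℝ) * ((j : ℝ) ^ 2 * 2 ^ j * D) := by
        refine Finset.sum_le_sum fun j hj => ?_
        rw [norm_mul]
        exact mul_le_mul (coef_le hF hd hj) (hg j) (norm_nonneg _) (by positivity)
    _ = (∑ j ∈ range (d + 1), (j : ℝ) ^ 2 * 2 ^ j) * (H * D) := by
        rw [Finset.sum_mul]
        exact Finset.sum_congr rfl fun j _ => by ring
    _ ≤ 8 ^ d * (H * D) := by
        have := sum_sq_two d
        gcongr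
    _ ≤ 8 ^ n * (H * D) := by
        have : (8 : ℝ) ^ d ≤ 8 ^ n := pow_le_pow_right₀ (by norm_num) hd
        gcongr
    _ = _ := by ring

theorem hp_lip {n H d : ℕ} {F : ℕ → ℕ → ℤ} (hF : Bdd n H F) (hd : d ≤ n) (z w : ℂ)
    (hz : ‖z‖ ≤ 2) (hw : ‖w‖ ≤ 2) :
    ‖(hp d F).eval z - (hp d F).eval w‖ ≤ 8 ^ n * H * ‖z - w‖ := by
  rw [hp_eval, hp_eval, ← Finset.sum_sub_distrib]
  have : ∀ j ∈ range (d + 1), (F (d - j) j : ℂ) * z ^ j - (F (d - j) j : ℂ) * w ^ j =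
      (F (d - j) j : ℂ) * (z ^ j - w ^ j) := fun j _ => by ring
  rw [Finset.sum_congr rfl this]
  exact sum_bd hF hd _ _ (norm_nonneg _) fun j => pow_lip' j z w hz hw

theorem hpd_lip {n H d : ℕ} {F : ℕ → ℕ → ℤ} (hF : Bdd n H F) (hd : d ≤ n) (z w : ℂ)
    (hz : ‖z‖ ≤ 2) (hw : ‖w‖ ≤ 2) :
    ‖(derivative (hp d F)).eval z - (derivative (hp d F)).eval w‖ ≤ 8 ^ n * H * ‖z - w‖ := by
  rw [hp_der, hp_der, ← Finset.sum_sub_distrib]
  have : ∀ j ∈ range (d + 1), (F (d - j) j : ℂ) * ((j : ℂ) * z ^ (j - 1)) -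
      (F (d - j) j : ℂ) * ((j : ℂ) * w ^ (j - 1)) =
      (F (d - j) j : ℂ) * ((j : ℂ) * z ^ (j - 1) - (j : ℂ) * w ^ (j - 1)) := fun j _ => by ring
  rw [Finset.sum_congr rfl this]
  exact sum_bd hF hd _ _ (norm_nonneg _) fun j => der_lip j z w hz hw

theorem hp_tay {n H d : ℕ} {F : ℕ → ℕ → ℤ} (hF : Bdd n H F) (hd : d ≤ n) (z w : ℂ)
    (hz : ‖z‖ ≤ 2) (hw : ‖w‖ ≤ 2) :
    ‖(hp d F).eval z - (hp d F).eval w - (derivative (hp d F)).eval w * (z - w)‖ ≤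
      8 ^ n * H * ‖z - w‖ ^ 2 := by
  rw [hp_eval, hp_eval, hp_der, ← Finset.sum_sub_distrib, Finset.sum_mul,
    ← Finset.sum_sub_distrib]
  have : ∀ j ∈ range (d + 1), (F (d - j) j : ℂ) * z ^ j - (F (d - j) j : ℂ) * w ^ j -
      (F (d - j) j : ℂ) * ((j : ℂ) * w ^ (j - 1)) * (z - w) =
      (F (d - j) j : ℂ) * (z ^ j - w ^ j - (j : ℂ) * w ^ (j - 1) * (z - w)) :=
    fun j _ => by ring
  rw [Finset.sum_congr rfl this]
  exact sum_bd hF hd _ _ (by positivity) fun j => pow_tay j z w hz hw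

theorem hp_small {n H d : ℕ} {F : ℕ → ℕ → ℤ} (hF : Bdd n H F) (hd : d ≤ n) (z : ℂ)
    (hz : ‖z‖ ≤ 1) : ‖(hp d F).eval z‖ ≤ (d + 1) * H := by
  rw [hp_eval]
  calc ‖∑ j ∈ range (d + 1), (F (d - j) j : ℂ) * z ^ j‖
      ≤ ∑ j ∈ range (d + 1), ‖(F (d - j) j : ℂ) * z ^ j‖ := norm_sum_le _ _
    _ ≤ ∑ j ∈ range (d + 1), (H : ℝ) := by
        refine Finset.sum_le_sum fun j hj => ?_
        rw [norm_mul, norm_pow]
        have h1 := coef_le hF hd hj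
        have h2 : ‖z‖ ^ j ≤ 1 := pow_le_one₀ (norm_nonneg _) hz
        calc ‖(F (d - j) j : ℂ)‖ * ‖z‖ ^ j ≤ (H : ℝ) * 1 :=
              mul_le_mul h1 h2 (by positivity) (by positivity)
          _ = H := mul_one _
    _ = (d + 1) * H := by
        rw [Finset.sum_const, Finset.card_range, nsmul_eq_mul]
        push_cast
        ring

/-- regrouping by total degree -/
theorem ev_eq (n : ℕ) (F : ℕ → ℕ → ℤ) (x y : ℤ) :
    ev n F x y = ∑ d ∈ range (n + 1), ∑ j ∈ range (d + 1), F (d - j) j * x ^ (d - j) * y ^ j := by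
  unfold ev
  rw [Finset.sum_sigma', Finset.sum_sigma']
  refine Finset.sum_bij' (fun p _ => ⟨p.1 + p.2, p.2⟩) (fun p _ => ⟨p.1 - p.2, p.2⟩) ?_ ?_ ?_ ?_ ?_
  · rintro ⟨i, j⟩ h
    simp only [Finset.mem_sigma, Finset.mem_range] at h ⊢
    omega
  · rintro ⟨d, j⟩ h
    simp only [Finset.mem_sigma, Finset.mem_range] at h ⊢
    omega
  · rintro ⟨i, j⟩ h
    simp
  · rintro ⟨d, j⟩ h
    simp only [Finset.mem_sigma, Finset.mem_range] at h
    simp only [Sigma.mk.injEq, heq_eq_eq, and_true]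
    omega
  · rintro ⟨i, j⟩ h
    simp

theorem ev_hp (n : ℕ) (F : ℕ → ℕ → ℤ) (x y : ℤ) (hx : x ≠ 0) :
    ((ev n F x y : ℤ) : ℂ) = ∑ d ∈ range (n + 1), (x : ℂ) ^ d * (hp d F).eval ((y : ℂ) / x) := by
  have hx' : (x : ℂ) ≠ 0 := by exact_mod_cast hx
  rw [ev_eq]
  push_cast
  refine Finset.sum_congr rfl fun d _ => ?_
  rw [hp_eval, Finset.mul_sum]
  refine Finset.sum_congr rfl fun j hj => ?_
  have hj' := Finset.mem_range.1 hj
  have h1 : (x : ℂ) ^ d = (x : ℂ) ^ (d - j) * (x : ℂ) ^ j := by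
    rw [← pow_add]
    congr 1
    omega
  rw [h1, div_pow]
  field_simp

/-- the lower order part -/
theorem low_part {n H m : ℕ} {F : ℕ → ℕ → ℤ} (hF : Bdd n H F) (hm : m + 1 ≤ n) (x : ℂ) (z : ℂ)
    (hz : ‖z‖ ≤ 1) (hx : 1 ≤ ‖x‖) :
    ‖∑ d ∈ range (m + 1), x ^ d * (hp d F).eval z‖ ≤ (n : ℝ) ^ 2 * H * ‖x‖ ^ m := by
  calc ‖∑ d ∈ range (m + 1), x ^ d * (hp d F).eval z‖
      ≤ ∑ d ∈ range (m + 1), ‖x ^ d * (hp d F).eval z‖ := norm_sum_le _ _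
    _ ≤ ∑ d ∈ range (m + 1), ‖x‖ ^ m * ((n : ℝ) * H) := by
        refine Finset.sum_le_sum fun d hd => ?_
        have hd' := Finset.mem_range.1 hd
        rw [norm_mul, norm_pow]
        have h1 : ‖x‖ ^ d ≤ ‖x‖ ^ m := pow_le_pow_right₀ hx (by omega)
        have h2 := hp_small hF (by omega : d ≤ n) z hz
        have h3 : ((d : ℝ) + 1) ≤ n := by
          have : d + 1 ≤ n := by omega
          exact_mod_cast this
        have h4 : ‖(hp d F).eval z‖ ≤ (n : ℝ) * H := h2.trans (by gcongr)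
        exact mul_le_mul h1 h4 (norm_nonneg _) (by positivity)
    _ = (m + 1) * (‖x‖ ^ m * ((n : ℝ) * H)) := by
        rw [Finset.sum_const, Finset.card_range, nsmul_eq_mul]
        push_cast
        ring
    _ ≤ n * (‖x‖ ^ m * ((n : ℝ) * H)) := by
        have h3 : ((m : ℝ) + 1) ≤ n := by exact_mod_cast hm
        gcongr
    _ = _ := by ring

theorem sq_le_eight (n : ℕ) (hn : 2 ≤ n) : (n : ℝ) ^ 2 + 1 ≤ 8 ^ n ∧ 8 * (n : ℝ) ^ 2 ≤ (8 ^ n) ^ 2 ∧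
    2 * (n : ℝ) ≤ 8 ^ n := by
  have h1 : n + 1 ≤ 2 ^ n := Nat.lt_two_pow_self
  have h2 : (n : ℝ) + 1 ≤ 2 ^ n := by exact_mod_cast h1
  have h4 : (8 : ℝ) ^ n = 2 ^ n * 2 ^ n * 2 ^ n := by
    rw [← pow_add, ← pow_add, show (8 : ℝ) = 2 ^ 3 by norm_num, ← pow_mul]
    congr 1
    ring
  have hn' : (2 : ℝ) ≤ n := by exact_mod_cast hn
  set t : ℝ := 2 ^ n with ht
  have ht3 : 3 ≤ t := by linarith
  have e1 : (n : ℝ) ^ 2 + 1 ≤ t * t := by nlinarith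
  have e2 : t * t ≤ t * t * t := by nlinarith [mul_pos (by linarith : 0 < t) (by linarith : 0 < t)]
  have e3 : 9 ≤ t * t := by nlinarith
  rw [h4]
  refine ⟨e1.trans e2, ?_, ?_⟩
  · have e4 : 8 * (n : ℝ) ^ 2 ≤ 8 * (t * t) := by nlinarith
    have e5 : 9 * (t * t) ≤ (t * t) * (t * t) := by nlinarith
    have e6 : (t * t) * (t * t) ≤ (t * t * t) * (t * t * t) :=
      mul_le_mul e2 e2 (by positivity) (by positivity)
    have e7 : 0 ≤ t * t := by positivity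
    nlinarith
  · nlinarith

end AsymAux

theorem asym {n H : ℕ} (hn : 2 ≤ n) (hH : 1 ≤ H) {M : ℝ} (hM : 1 ≤ M) {F : ℕ → ℕ → ℤ}
    (hF : Bdd n H F) (hS : Simp n H M F) (x y : ℤ) (hv : |ev n F x y| ≤ (H : ℤ))
    (hyx : |y| ≤ |x|) (hx : (8 : ℝ) ^ (3 * n) * M ^ 2 ≤ |(x : ℝ)|) :
    ∃ θ : ℂ, (hp n F).IsRoot θ ∧
      ‖(y : ℂ) - θ * x - bet n F θ‖ ≤ 8 ^ (5 * n) * M ^ 3 / |(x : ℝ)| := by
  classical
  obtain ⟨hb1, hb2, hb3⟩ := AsymAux.sq_le_eight n hn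
  set b : ℝ := 8 ^ n with hb
  have hb8 : (8 : ℝ) ≤ b := by
    rw [hb]
    calc (8 : ℝ) = 8 ^ 1 := by norm_num
      _ ≤ 8 ^ n := pow_le_pow_right₀ (by norm_num) (by omega)
  have hbb3 : (8 : ℝ) ^ (3 * n) = b ^ 3 := by rw [hb, ← pow_mul, mul_comm]
  have hbb5 : (8 : ℝ) ^ (5 * n) = b ^ 5 := by rw [hb, ← pow_mul, mul_comm]
  rw [hbb3] at hx
  rw [hbb5]
  have hHr : (1 : ℝ) ≤ (H : ℝ) := by exact_mod_cast hH
  have hn' : (2 : ℝ) ≤ n := by exact_mod_cast hn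
  set X : ℝ := |(x : ℝ)| with hX
  have hbp : 0 < b := by linarith
  have hMp : 0 < M := by linarith
  have hb31 : (1 : ℝ) ≤ b ^ 3 := one_le_pow₀ (by linarith)
  have hM21 : (1 : ℝ) ≤ M ^ 2 := one_le_pow₀ hM
  have hX1 : 1 ≤ X := by
    calc (1 : ℝ) = 1 * 1 := by norm_num
      _ ≤ b ^ 3 * M ^ 2 := mul_le_mul hb31 hM21 (by norm_num) (by positivity)
      _ ≤ X := hx
  have hXp : 0 < X := by linarith
  have hx0 : x ≠ 0 := by
    rintro rfl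
    simp at hX
    linarith
  have hxc : (x : ℂ) ≠ 0 := by exact_mod_cast hx0
  have hnx : ‖(x : ℂ)‖ = X := by rw [Complex.norm_intCast]
  have hnx1 : 1 ≤ ‖(x : ℂ)‖ := by rw [hnx]; exact hX1
  -- the point z0
  have hyxr : |(y : ℝ)| ≤ |(x : ℝ)| := by exact_mod_cast hyx
  have hz0r : |(y : ℝ) / x| ≤ 1 := by
    rw [abs_div]
    exact div_le_one_of_le₀ hyxr (abs_nonneg _)
  set z0 : ℂ := (y : ℂ) / x with hz0
  have hz0e : (((y : ℝ) / x : ℝ) : ℂ) = z0 := by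
    rw [hz0]
    push_cast
    rfl
  have hz0n : ‖z0‖ ≤ 1 := by
    rw [← hz0e, Complex.norm_real, Real.norm_eq_abs]
    exact hz0r
  set f := hp n F with hf
  have hev := AsymAux.ev_hp n F x y hx0
  rw [← hz0] at hev
  have hevn : ‖((ev n F x y : ℤ) : ℂ)‖ ≤ H := by
    rw [Complex.norm_intCast]
    exact_mod_cast hv
  -- step 1
  have hstep1 : ‖f.eval z0‖ ≤ b * H / X := by
    rw [Finset.sum_range_succ] at hev
    obtain ⟨m, rfl⟩ : ∃ m, n = m + 1 := ⟨n - 1, by omega⟩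
    have hlow := AsymAux.low_part (m := m) hF le_rfl (x : ℂ) z0 hz0n hnx1
    have h1 : (x : ℂ) ^ (m + 1) * f.eval z0 = ((ev (m + 1) F x y : ℤ) : ℂ) -
        ∑ d ∈ range (m + 1), (x : ℂ) ^ d * (hp d F).eval z0 := by
      rw [hev]
      ring
    have h2 : X ^ (m + 1) * ‖f.eval z0‖ ≤ H + ((m + 1 : ℕ) : ℝ) ^ 2 * H * X ^ m := by
      rw [← hnx, ← norm_pow, ← norm_mul, h1]
      exact (norm_sub_le _ _).trans (add_le_add hevn hlow)
    have hXm : 1 ≤ X ^ m := one_le_pow₀ hX1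
    have h3 : X ^ m * (X * ‖f.eval z0‖) ≤ X ^ m * (b * H) := by
      calc X ^ m * (X * ‖f.eval z0‖) = X ^ (m + 1) * ‖f.eval z0‖ := by ring
        _ ≤ H + ((m + 1 : ℕ) : ℝ) ^ 2 * H * X ^ m := h2
        _ ≤ H * X ^ m + ((m + 1 : ℕ) : ℝ) ^ 2 * H * X ^ m := by
            have : (H : ℝ) * 1 ≤ H * X ^ m := by gcongr
            linarith
        _ = X ^ m * ((((m + 1 : ℕ) : ℝ) ^ 2 + 1) * H) := by ring
        _ ≤ X ^ m * (b * H) := by gcongr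
    have h4 := le_of_mul_le_mul_left h3 (by positivity)
    rw [le_div_iff₀ hXp]
    linarith
  have hsimp : (H : ℝ) / M ≤ ‖(derivative f).eval z0‖ := by
    rcases hS ((y : ℝ) / x) hz0r with h | h
    · exfalso
      rw [hz0e, ← hf] at h
      have h1 := h.trans hstep1
      rw [div_le_div_iff₀ (by positivity) hXp] at h1
      have h2 : (H : ℝ) * (b ^ 3 * M ^ 2) ≤ b * H * M ^ 2 := by
        refine le_trans ?_ h1
        gcongr
      have h3 : b < b ^ 3 := by nlinarith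
      have h4 : b * H * M ^ 2 < (H : ℝ) * (b ^ 3 * M ^ 2) := by
        have : 0 < (H : ℝ) * M ^ 2 := by positivity
        nlinarith
      linarith
    · rw [hz0e, ← hf] at h
      exact h
  have hHMp : 0 < (H : ℝ) / M := by positivity
  have hder0 : (derivative f).eval z0 ≠ 0 := by
    intro h
    rw [h, norm_zero] at hsimp
    linarith
  obtain ⟨θ, hθr, hθ⟩ := near_root f z0 hder0
  refine ⟨θ, hθr, ?_⟩
  have hdeg : (f.natDegree : ℝ) ≤ n := by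
    have : f.natDegree ≤ n := by
      rw [Polynomial.natDegree_le_iff_coeff_eq_zero]
      intro k hk
      rw [hf, hp, lead, Polynomial.coeff_map, finsetSum_coeff]
      simp only [coeff_C_mul_X_pow]
      rw [Finset.sum_eq_zero]
      · simp
      · intro j hj
        have := Finset.mem_range.1 hj
        rw [if_neg (by omega)]
    exact_mod_cast this
  set δ : ℝ := ‖z0 - θ‖ with hδ
  have hδ0 : 0 ≤ δ := norm_nonneg _
  -- step 2
  have hδX : δ * X ≤ n * b * M := by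
    have h1 : δ * (H / M) ≤ n * (b * H / X) :=
      calc δ * (H / M) ≤ δ * ‖(derivative f).eval z0‖ := by gcongr
        _ ≤ f.natDegree * ‖f.eval z0‖ := hθ
        _ ≤ n * (b * H / X) := by gcongr
    have h2 : δ * (H / M) * (X * M) ≤ n * (b * H / X) * (X * M) := by gcongr
    have h3 : δ * (H / M) * (X * M) = H * (δ * X) := by field_simp
    have h4 : n * (b * H / X) * (X * M) = H * (n * b * M) := by field_simp
    rw [h3, h4] at h2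
    exact le_of_mul_le_mul_left h2 (by linarith)
  have hδb : δ * (2 * b * M) ≤ 1 := by
    have h1 : δ * (b ^ 3 * M ^ 2) ≤ n * b * M := (mul_le_mul_of_nonneg_left hx hδ0).trans hδX
    have h2 : (b * M) * (δ * (b * b * M)) ≤ (b * M) * n := by nlinarith
    have h3 := le_of_mul_le_mul_left h2 (by positivity)
    have h4 : b * (δ * (2 * b * M)) ≤ b * 1 := by nlinarith
    exact le_of_mul_le_mul_left h4 hbp
  have hδ1 : δ ≤ 1 := by
    have h1 : 1 ≤ 2 * b * M := by nlinarith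
    nlinarith
  have hθ2 : ‖θ‖ ≤ 2 := by
    have h1 : θ = z0 - (z0 - θ) := by ring
    rw [h1]
    refine (norm_sub_le _ _).trans ?_
    rw [← hδ]
    linarith
  have hz02 : ‖z0‖ ≤ 2 := by linarith
  have hfθ : f.eval θ = 0 := hθr
  have hdθ : (H : ℝ) / (2 * M) ≤ ‖(derivative f).eval θ‖ := by
    have h1 := AsymAux.hpd_lip hF le_rfl z0 θ hz02 hθ2
    rw [← hf, ← hb, ← hδ] at h1
    have h2 : ‖(derivative f).eval z0‖ ≤ ‖(derivative f).eval z0 - (derivative f).eval θ‖ +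
        ‖(derivative f).eval θ‖ := by
      have := norm_add_le ((derivative f).eval z0 - (derivative f).eval θ) ((derivative f).eval θ)
      rwa [sub_add_cancel] at this
    have h3 : b * H * δ ≤ H / (2 * M) := by
      rw [le_div_iff₀ (by positivity)]
      calc b * H * δ * (2 * M) = H * (δ * (2 * b * M)) := by ring
        _ ≤ H * 1 := by gcongr
        _ = H := mul_one _
    have h4 : (H : ℝ) / M = H / (2 * M) + H / (2 * M) := by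
      field_simp
      ring
    linarith
  have hdθp : 0 < ‖(derivative f).eval θ‖ := lt_of_lt_of_le (by positivity) hdθ
  have hdθ0 : (derivative f).eval θ ≠ 0 := norm_pos_iff.1 hdθp
  -- step 3
  set g := hp (n - 1) F with hg
  set N : ℝ := ‖(derivative f).eval θ * ((x : ℂ) * (z0 - θ)) + g.eval θ‖ with hN
  set W : ℝ := n * b * M with hW
  have hW1 : 1 ≤ W := by
    have h1 : 1 ≤ (n : ℝ) * b := by nlinarith
    calc (1 : ℝ) = 1 * 1 := by norm_num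
      _ ≤ n * b * M := mul_le_mul h1 hM (by norm_num) (by positivity)
  have hkey : X * N ≤ H * (3 * b * W ^ 2) := by
    have hl2 := AsymAux.hp_lip hF (Nat.sub_le n 1) z0 θ hz02 hθ2
    have hl1 := AsymAux.hp_tay hF le_rfl z0 θ hz02 hθ2
    rw [← hg, ← hb, ← hδ] at hl2
    rw [← hf, ← hb, ← hδ, hfθ, sub_zero] at hl1
    obtain ⟨k, rfl⟩ : ∃ k, n = k + 2 := ⟨n - 2, by omega⟩
    have hlow := AsymAux.low_part (m := k) hF (by omega) (x : ℂ) z0 hz0n hnx1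
    rw [Finset.sum_range_succ, Finset.sum_range_succ] at hev
    rw [hnx] at hlow
    have hk1 : k + 2 - 1 = k + 1 := rfl
    rw [hk1] at hg
    rw [← hg, ← hf] at hev
    have h1 : (x : ℂ) ^ (k + 1) *
        ((derivative f).eval θ * ((x : ℂ) * (z0 - θ)) + g.eval θ) =
        ((ev (k + 2) F x y : ℤ) : ℂ) -
        ∑ d ∈ range (k + 1), (x : ℂ) ^ d * (hp d F).eval z0 -
        (x : ℂ) ^ (k + 1) * (g.eval z0 - g.eval θ) -
        (x : ℂ) ^ (k + 2) * (f.eval z0 - (derivative f).eval θ * (z0 - θ)) := by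
      rw [hev]
      ring
    have h2 : X ^ (k + 1) * N ≤ H + ((k + 2 : ℕ) : ℝ) ^ 2 * H * X ^ k +
        X ^ (k + 1) * (b * H * δ) + X ^ (k + 2) * (b * H * δ ^ 2) := by
      have e1 : X ^ (k + 1) * N = ‖(x : ℂ) ^ (k + 1) *
        ((derivative f).eval θ * ((x : ℂ) * (z0 - θ)) + g.eval θ)‖ := by
        rw [norm_mul, norm_pow, hnx]
      rw [e1, h1]
      refine (norm_sub_le _ _).trans (add_le_add ?_ ?_)
      · refine (norm_sub_le _ _).trans (add_le_add ?_ ?_)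
        · exact (norm_sub_le _ _).trans (add_le_add hevn hlow)
        · rw [norm_mul, norm_pow, hnx]
          exact mul_le_mul_of_nonneg_left hl2 (by positivity)
      · rw [norm_mul, norm_pow, hnx]
        exact mul_le_mul_of_nonneg_left hl1 (by positivity)
    have hXk : 1 ≤ X ^ k := one_le_pow₀ hX1
    have hb0 : 0 ≤ b := hbp.le
    have hH0 : (0 : ℝ) ≤ H := by linarith
    have h3 : X ^ (k + 1) * (X * N) ≤ X ^ (k + 1) * (H * (3 * b * W ^ 2)) := by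
      have t1 : (H : ℝ) * X ≤ X ^ (k + 1) * H := by
        calc (H : ℝ) * X = (1 * X) * H := by ring
          _ ≤ (X ^ k * X) * H := by gcongr
          _ = X ^ (k + 1) * H := by ring
      have t2 : X ^ (k + 1) * (b * H * δ) * X ≤ X ^ (k + 1) * (b * H * W) := by
        calc X ^ (k + 1) * (b * H * δ) * X = X ^ (k + 1) * (b * H * (δ * X)) := by ring
          _ ≤ _ := by gcongr
      have t3 : X ^ (k + 2) * (b * H * δ ^ 2) * X ≤ X ^ (k + 1) * (b * H * W ^ 2) := by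
        calc X ^ (k + 2) * (b * H * δ ^ 2) * X = X ^ (k + 1) * (b * H * (δ * X) ^ 2) := by ring
          _ ≤ _ := by
            have : 0 ≤ δ * X := by positivity
            gcongr
      have hW2 : W ≤ W ^ 2 := by nlinarith
      have t4 : (1 + ((k + 2 : ℕ) : ℝ) ^ 2) + b * W + b * W ^ 2 ≤ 3 * b * W ^ 2 := by
        have u1 : 1 + ((k + 2 : ℕ) : ℝ) ^ 2 ≤ b := by linarith
        have u2 : b * 1 ≤ b * W ^ 2 := by
          have : 1 ≤ W ^ 2 := by linarith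
          gcongr
        have u3 : b * W ≤ b * W ^ 2 := by gcongr
        linarith
      calc X ^ (k + 1) * (X * N) = X ^ (k + 1) * N * X := by ring
        _ ≤ (H + ((k + 2 : ℕ) : ℝ) ^ 2 * H * X ^ k +
        X ^ (k + 1) * (b * H * δ) + X ^ (k + 2) * (b * H * δ ^ 2)) * X := by gcongr
        _ = H * X + ((k + 2 : ℕ) : ℝ) ^ 2 * H * X ^ (k + 1) +
          X ^ (k + 1) * (b * H * δ) * X + X ^ (k + 2) * (b * H * δ ^ 2) * X := by ring
        _ ≤ X ^ (k + 1) * H + ((k + 2 : ℕ) : ℝ) ^ 2 * H * X ^ (k + 1) +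
          X ^ (k + 1) * (b * H * W) + X ^ (k + 1) * (b * H * W ^ 2) := by linarith
        _ = X ^ (k + 1) * (H * ((1 + ((k + 2 : ℕ) : ℝ) ^ 2) + b * W + b * W ^ 2)) := by ring
        _ ≤ X ^ (k + 1) * (H * (3 * b * W ^ 2)) := by gcongr
    exact le_of_mul_le_mul_left h3 (by positivity)
  have hfin : ‖(y : ℂ) - θ * x - bet n F θ‖ * ‖(derivative f).eval θ‖ = N := by
    rw [hN, ← norm_mul]
    congr 1
    unfold bet
    rw [← hf, ← hg, hz0]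
    field_simp
    ring
  have hb5 : 3 * b * W ^ 2 * (2 * M) ≤ b ^ 5 * M ^ 3 := by
    calc 3 * b * W ^ 2 * (2 * M) = 6 * (n : ℝ) ^ 2 * (b ^ 3 * M ^ 3) := by rw [hW]; ring
      _ ≤ 8 * (n : ℝ) ^ 2 * (b ^ 3 * M ^ 3) := by
          have : (6 : ℝ) ≤ 8 := by norm_num
          gcongr
      _ ≤ b ^ 2 * (b ^ 3 * M ^ 3) := by gcongr
      _ = _ := by ring
  rw [le_div_iff₀ hXp]
  have h1 : ‖(y : ℂ) - θ * x - bet n F θ‖ * (H / (2 * M)) ≤ N := by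
    rw [← hfin]
    gcongr
  have h2 : ‖(y : ℂ) - θ * x - bet n F θ‖ * H ≤ N * (2 * M) := by
    have h3 : ‖(y : ℂ) - θ * x - bet n F θ‖ * (H / (2 * M)) * (2 * M) ≤ N * (2 * M) := by gcongr
    have h4 : ‖(y : ℂ) - θ * x - bet n F θ‖ * (H / (2 * M)) * (2 * M) =
        ‖(y : ℂ) - θ * x - bet n F θ‖ * H := by field_simp
    rwa [h4] at h3
  have h5 : H * (‖(y : ℂ) - θ * x - bet n F θ‖ * X) ≤ H * (b ^ 5 * M ^ 3) := by
    calc H * (‖(y : ℂ) - θ * x - bet n F θ‖ * X) =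
        (‖(y : ℂ) - θ * x - bet n F θ‖ * H) * X := by ring
      _ ≤ N * (2 * M) * X := by gcongr
      _ = (X * N) * (2 * M) := by ring
      _ ≤ (H * (3 * b * W ^ 2)) * (2 * M) := by gcongr
      _ = H * (3 * b * W ^ 2 * (2 * M)) := by ring
      _ ≤ H * (b ^ 5 * M ^ 3) := by gcongr
  exact le_of_mul_le_mul_left h5 (by linarith)

end Pool.Agent.H8.NoPt
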