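import Pool.Agent.H8.NoPt.Asym
import Pool.Agent.H72.ES.Line

/-! # [NP-MID] Few integer points with `|F(x,y)| ≤ H` in the middle range

`c = 8^(5n)`, `X₀ = 8^(3n) M²`, `η = 1/(4 c M³)`.
(1) Three points `P_i = (x_i, y_i)`, `i = 1,2,3`, with the same `θ` in `asym`, the `x_i` of the
same sign and `X ≤ |x_i| ≤ (1+η) X`, are collinear: the integer
`D = (x_2 - x_1)(y_3 - y_1) - (x_3 - x_1)(y_2 - y_1)` does not change if `y_i` is replaced by
`e_i = y_i - θ x_i - bet`, `‖e_i‖ ≤ c M³/X`; `|x_i - x_j| ≤ η X`. Hence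
`|D| ≤ 2 * ηX * 2cM³/X = 4 η c M³`. This is `≤ 1`; to get `< 1` use half open windows
(`|x_i - x_j| < ηX`), or write `D` as `∑` of three terms `(x_i - x_j) e_k`:
`|D| ≤ 3 η c M³ = 3/4`.
(2) So each class (root `θ` among the at most `n` roots of `hp n F ≠ 0`; sign of `x`; window number
`k = ⌊log |x| / log (1+η)⌋`) contains at most `3 n H^(1/n)` points: if it has two different points
`P, P'`, all points `R` of the class satisfy the collinearity condition of `line_bound_points`;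
otherwise it has at most one point. (`hp n F ≠ 0` follows from `NZ` with `u = (0,1)`; its degree
is `≤ n`.)
(3) Number of classes: `≤ n * 2 * (log Y / log (1+η) + 1) ≤ 2 n (8 c M³ log Y + 1)` as
`log (1+η) ≥ η/2`. Total `≤ 2n (8 c M³ log Y + 1) 3 n H^(1/n) ≤ 48 n² c M³ (1 + log Y) H^(1/n)`
and `48 n² ≤ 8^(2n)`. -/

namespace Pool.Agent.H8.NoPt

open Finset Polynomial Pool.Agent.H72.ES

theorem col_of_close (θ β : ℂ) (E L : ℝ) (hE : 0 ≤ E) (hEL : 3 * (E * L) < 1)
    (P P' R : ℤ × ℤ) (h1 : ‖(P.2 : ℂ) - θ * P.1 - β‖ ≤ E) (h2 : ‖(P'.2 : ℂ) - θ * P'.1 - β‖ ≤ E)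
    (h3 : ‖(R.2 : ℂ) - θ * R.1 - β‖ ≤ E) (h12 : |(P.1 : ℝ) - P'.1| ≤ L)
    (h13 : |(P.1 : ℝ) - R.1| ≤ L) (h23 : |(P'.1 : ℝ) - R.1| ≤ L) :
    (P'.1 - P.1) * (R.2 - P.2) = (R.1 - P.1) * (P'.2 - P.2) := by
  set D : ℤ := (P'.1 - P.1) * (R.2 - P.2) - (R.1 - P.1) * (P'.2 - P.2) with hD
  have key : (D : ℂ) = ((P.2 : ℂ) - θ * P.1 - β) * ((R.1 - P'.1 : ℝ) : ℂ) +
      ((P'.2 : ℂ) - θ * P'.1 - β) * ((P.1 - R.1 : ℝ) : ℂ) +
      ((R.2 : ℂ) - θ * R.1 - β) * ((P'.1 - P.1 : ℝ) : ℂ) := by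
    rw [hD]; push_cast; ring
  have hb : ‖(D : ℂ)‖ < 1 := by
    rw [key]
    refine (norm_add₃_le).trans_lt ?_
    rw [norm_mul, norm_mul, norm_mul, Complex.norm_real, Complex.norm_real, Complex.norm_real,
      Real.norm_eq_abs, Real.norm_eq_abs, Real.norm_eq_abs]
    have h23' : |(R.1 : ℝ) - P'.1| ≤ L := by rw [abs_sub_comm]; exact h23
    have h12' : |(P'.1 : ℝ) - P.1| ≤ L := by rw [abs_sub_comm]; exact h12
    have a1 := mul_le_mul h1 h23' (abs_nonneg _) hE
    have a2 := mul_le_mul h2 h13 (abs_nonneg _) hE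
    have a3 := mul_le_mul h3 h12' (abs_nonneg _) hE
    linarith
  have hb' : |(D : ℝ)| < 1 := by
    have : ‖(D : ℂ)‖ = |(D : ℝ)| := by
      rw [← Complex.ofReal_intCast, Complex.norm_real, Real.norm_eq_abs]
    rwa [this] at hb
  have hb2 : |D| < 1 := by exact_mod_cast hb'
  have : D = 0 := Int.abs_lt_one_iff.mp hb2
  rw [hD] at this
  linarith


theorem hp_natDegree_le (n : ℕ) (F : ℕ → ℕ → ℤ) : (hp n F).natDegree ≤ n := by
  unfold hp lead
  refine (natDegree_map_le).trans (natDegree_sum_le_of_forall_le _ _ fun j hj => ?_)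
  rw [mem_range] at hj
  exact (natDegree_C_mul_X_pow_le _ _).trans (by omega)

theorem hp_ne_zero {n : ℕ} {F : ℕ → ℕ → ℤ} (h : NZ n F) : hp n F ≠ 0 := by
  intro h0
  have h1 := h 0 1 (Or.inr one_ne_zero)
  apply h1
  refine sum_eq_zero fun j hj => ?_
  rw [mem_range] at hj
  have hc : (hp n F).coeff j = ((F (n - j) j : ℤ) : ℂ) := by
    unfold hp lead
    rw [coeff_map, finsetSum_coeff]
    simp only [coeff_C_mul, coeff_X_pow]
    rw [sum_eq_single j]
    · simp
    · intro b _ hb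
      rw [if_neg (fun h => hb h.symm)]; simp
    · intro hj'; exact absurd (mem_range.mpr hj) hj'
  rw [h0, coeff_zero] at hc
  have : F (n - j) j = 0 := by exact_mod_cast hc.symm
  rw [this]; simp

theorem mid_count {n H : ℕ} (hn : 2 ≤ n) (hH : 1 ≤ H) {M : ℝ} (hM : 1 ≤ M) {F : ℕ → ℕ → ℤ}
    (hF : Bdd n H F) (hS : Simp n H M F) (hNZ : NZ n F) (Y : ℝ) (hY : 1 ≤ Y)
    (S : Finset (ℤ × ℤ))
    (hP : ∀ P ∈ S, |ev n F P.1 P.2| ≤ (H : ℤ) ∧ |P.2| ≤ |P.1| ∧
      (8 : ℝ) ^ (3 * n) * M ^ 2 ≤ |(P.1 : ℝ)| ∧ |(P.1 : ℝ)| ≤ Y) :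
    (S.card : ℝ) ≤ 8 ^ (7 * n) * M ^ 3 * (1 + Real.log Y) * (H : ℝ) ^ (1 / (n : ℝ)) := by
  classical
  set c : ℝ := (8 : ℝ) ^ (5 * n) with hc
  have hc1 : 1 ≤ c := one_le_pow₀ (by norm_num)
  have hM3 : 1 ≤ M ^ 3 := one_le_pow₀ hM
  have hcM : 1 ≤ c * M ^ 3 := by nlinarith
  set η : ℝ := 1 / (4 * (c * M ^ 3)) with hη
  have hη0 : 0 < η := by positivity
  have hη1 : η ≤ 1 := by
    rw [hη, div_le_one (by positivity)]; linarith
  set ℓ : ℝ := Real.log (1 + η) with hℓ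
  have hℓ0 : η / 2 ≤ ℓ := by
    have h1 := Real.one_sub_inv_le_log_of_pos (show 0 < 1 + η by positivity)
    have h2 : η / 2 ≤ 1 - (1 + η)⁻¹ := by
      have : 1 - (1 + η)⁻¹ = η / (1 + η) := by field_simp; ring
      rw [this]
      exact div_le_div_of_nonneg_left hη0.le (by positivity) (by linarith)
    linarith
  have hℓpos : 0 < ℓ := by linarith [half_pos hη0]
  set HR : ℝ := (H : ℝ) ^ (1 / (n : ℝ)) with hHR
  have hH1 : (1 : ℝ) ≤ H := by exact_mod_cast hH
  have hHR1 : 1 ≤ HR := Real.one_le_rpow hH1 (by positivity)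
  have hnR : (2 : ℝ) ≤ n := by exact_mod_cast hn
  -- the root attached to a point
  have hasym : ∀ P ∈ S, ∃ θ : ℂ, (hp n F).IsRoot θ ∧
      ‖(P.2 : ℂ) - θ * P.1 - bet n F θ‖ ≤ 8 ^ (5 * n) * M ^ 3 / |(P.1 : ℝ)| := fun P hPS =>
    asym hn hH hM hF hS P.1 P.2 (hP P hPS).1 (hP P hPS).2.1 (hP P hPS).2.2.1
  choose! θ hθ1 hθ2 using hasym
  have hxpos : ∀ P ∈ S, 1 ≤ |(P.1 : ℝ)| := by
    intro P hPS
    have h1 := (hP P hPS).2.2.1
    have h2 : (1 : ℝ) ≤ (8 : ℝ) ^ (3 * n) := one_le_pow₀ (by norm_num)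
    have h3 : 1 ≤ M ^ 2 := one_le_pow₀ hM
    nlinarith
  set K : ℕ := ⌊Real.log Y / ℓ⌋₊ with hK
  set key : ℤ × ℤ → ℂ × Bool × ℕ := fun P =>
    (θ P, decide (0 ≤ P.1), ⌊Real.log |(P.1 : ℝ)| / ℓ⌋₊) with hkey
  set T : Finset (ℂ × Bool × ℕ) :=
    (hp n F).roots.toFinset ×ˢ ((univ : Finset Bool) ×ˢ range (K + 1)) with hT
  have hmaps : ∀ P ∈ S, key P ∈ T := by
    intro P hPS
    rw [hT, mem_product, mem_product]
    refine ⟨?_, mem_univ _, ?_⟩
    · rw [Multiset.mem_toFinset, mem_roots (hp_ne_zero hNZ)]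
      exact hθ1 P hPS
    · rw [mem_range, Nat.lt_succ_iff]
      apply Nat.floor_le_floor
      apply div_le_div_of_nonneg_right _ hℓpos.le
      exact Real.log_le_log (by linarith [hxpos P hPS]) (hP P hPS).2.2.2
  have hfib : ∀ k ∈ T, (((S.filter fun P => key P = k).card : ℕ) : ℝ) ≤ 3 * n * HR := by
    intro k _
    set U := S.filter fun P => key P = k with hU
    by_cases hcard : U.card ≤ 1
    · have : (U.card : ℝ) ≤ 1 := by exact_mod_cast hcard
      nlinarith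
    · push Not at hcard
      obtain ⟨P, hPU, P', hP'U, hne⟩ := one_lt_card.mp hcard
      have hfac : ∀ R ∈ U, R ∈ S ∧ θ R = k.1 ∧ (decide (0 ≤ R.1)) = k.2.1 ∧
          (1 + η) ^ k.2.2 ≤ |(R.1 : ℝ)| ∧ |(R.1 : ℝ)| ≤ (1 + η) ^ k.2.2 * (1 + η) := by
        intro R hR
        rw [hU, mem_filter] at hR
        obtain ⟨hRS, hRk⟩ := hR
        have e1 : θ R = k.1 := by rw [← hRk]
        have e2 : (decide (0 ≤ R.1)) = k.2.1 := by rw [← hRk]
        have e3 : ⌊Real.log |(R.1 : ℝ)| / ℓ⌋₊ = k.2.2 := by rw [← hRk]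
        have hx1 := hxpos R hRS
        have hx0 : 0 < |(R.1 : ℝ)| := by linarith
        have hlog0 : 0 ≤ Real.log |(R.1 : ℝ)| := Real.log_nonneg hx1
        refine ⟨hRS, e1, e2, ?_, ?_⟩
        · have h1 : (k.2.2 : ℝ) ≤ Real.log |(R.1 : ℝ)| / ℓ := by
            rw [← e3]; exact Nat.floor_le (div_nonneg hlog0 hℓpos.le)
          rw [le_div_iff₀ hℓpos] at h1
          rw [← Real.log_le_log_iff (by positivity) hx0, Real.log_pow]
          exact h1
        · have h1 : Real.log |(R.1 : ℝ)| / ℓ < (k.2.2 : ℝ) + 1 := by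
            rw [← e3]; exact Nat.lt_floor_add_one _
          rw [div_lt_iff₀ hℓpos] at h1
          rw [← Real.log_le_log_iff hx0 (by positivity), ← pow_succ, Real.log_pow]
          push_cast
          exact h1.le
      set X : ℝ := (1 + η) ^ k.2.2 with hX
      have hX0 : 0 < X := by positivity
      have hdiff : ∀ A ∈ U, ∀ B ∈ U, |(A.1 : ℝ) - B.1| ≤ η * X := by
        intro A hA B hB
        obtain ⟨_, _, sA, lA, uA⟩ := hfac A hA
        obtain ⟨_, _, sB, lB, uB⟩ := hfac B hB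
        by_cases h0 : 0 ≤ A.1
        · have h0' : 0 ≤ B.1 := by
            have : decide (0 ≤ B.1) = true := by rw [sB, ← sA]; exact decide_eq_true h0
            exact of_decide_eq_true this
          have hA0 : (0 : ℝ) ≤ A.1 := by exact_mod_cast h0
          have hB0 : (0 : ℝ) ≤ B.1 := by exact_mod_cast h0'
          rw [abs_of_nonneg hA0] at lA uA
          rw [abs_of_nonneg hB0] at lB uB
          rw [abs_le]
          constructor <;> nlinarith
        · have h0' : ¬ 0 ≤ B.1 := by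
            intro hB0
            have : decide (0 ≤ A.1) = true := by rw [sA, ← sB]; exact decide_eq_true hB0
            exact h0 (of_decide_eq_true this)
          push Not at h0 h0'
          have hA0 : (A.1 : ℝ) < 0 := by exact_mod_cast h0
          have hB0 : (B.1 : ℝ) < 0 := by exact_mod_cast h0'
          rw [abs_of_neg hA0] at lA uA
          rw [abs_of_neg hB0] at lB uB
          rw [abs_le]
          constructor <;> nlinarith
      have hclose : ∀ A ∈ U, ‖(A.2 : ℂ) - k.1 * A.1 - bet n F k.1‖ ≤ c * M ^ 3 / X := by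
        intro A hA
        obtain ⟨hAS, tA, _, lA, _⟩ := hfac A hA
        have h1 := hθ2 A hAS
        rw [tA] at h1
        refine h1.trans ?_
        exact div_le_div_of_nonneg_left (by positivity) hX0 lA
      refine line_bound_points (by omega) F hNZ H hH P P' hne U ?_ ?_
      · intro R hR
        refine col_of_close k.1 (bet n F k.1) (c * M ^ 3 / X) (η * X) (by positivity) ?_ P P' R
          (hclose P hPU) (hclose P' hP'U) (hclose R hR) (hdiff P hPU P' hP'U) (hdiff P hPU R hR)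
          (hdiff P' hP'U R hR)
        have : c * M ^ 3 / X * (η * X) = 1 / 4 := by
          rw [hη]
          have : c * M ^ 3 ≠ 0 := by positivity
          field_simp
        rw [this]; norm_num
      · intro R hR
        exact (hP R (hfac R hR).1).1
  have hsum : (S.card : ℝ) ≤ (T.card : ℝ) * (3 * n * HR) := by
    rw [card_eq_sum_card_fiberwise hmaps, Nat.cast_sum]
    refine (sum_le_sum hfib).trans ?_
    rw [sum_const, nsmul_eq_mul]
  have hTcard : (T.card : ℝ) ≤ n * (2 * (8 * (c * M ^ 3) * Real.log Y + 1)) := by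
    rw [hT, card_product, card_product, card_range, card_univ, Fintype.card_bool]
    push_cast
    have h1 : ((hp n F).roots.toFinset.card : ℝ) ≤ n := by
      have : (hp n F).roots.toFinset.card ≤ n :=
        (Multiset.toFinset_card_le _).trans ((card_roots' _).trans (hp_natDegree_le n F))
      exact_mod_cast this
    have h2 : (K : ℝ) ≤ 8 * (c * M ^ 3) * Real.log Y := by
      have hlY : 0 ≤ Real.log Y := Real.log_nonneg hY
      have h3 : (K : ℝ) ≤ Real.log Y / ℓ := Nat.floor_le (div_nonneg hlY hℓpos.le)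
      refine h3.trans ?_
      rw [div_le_iff₀ hℓpos]
      have h4 : 1 ≤ 8 * (c * M ^ 3) * ℓ := by
        have : 8 * (c * M ^ 3) * (η / 2) = 1 := by
          rw [hη]
          have : c * M ^ 3 ≠ 0 := by positivity
          field_simp; norm_num
        rw [← this]
        gcongr
      nlinarith
    have h5 : (0 : ℝ) ≤ (K : ℝ) := Nat.cast_nonneg _
    gcongr
  have hlY : 0 ≤ Real.log Y := Real.log_nonneg hY
  have h48 : 48 * (n : ℝ) ^ 2 ≤ 8 ^ (2 * n) := by
    have : ∀ m : ℕ, 2 ≤ m → 48 * m ^ 2 ≤ 8 ^ (2 * m) := by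
      intro m hm
      induction m, hm using Nat.le_induction with
      | base => norm_num
      | succ k hk ih =>
        have : 8 ^ (2 * (k + 1)) = 64 * 8 ^ (2 * k) := by ring
        rw [this]; nlinarith
    exact_mod_cast this n hn
  calc (S.card : ℝ) ≤ (T.card : ℝ) * (3 * n * HR) := hsum
    _ ≤ (n * (2 * (8 * (c * M ^ 3) * Real.log Y + 1))) * (3 * n * HR) := by gcongr
    _ ≤ (n * (2 * (8 * (c * M ^ 3) * (1 + Real.log Y)))) * (3 * n * HR) := by
        gcongr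
        nlinarith
    _ = (48 * (n : ℝ) ^ 2) * c * M ^ 3 * (1 + Real.log Y) * HR := by ring
    _ ≤ 8 ^ (2 * n) * c * M ^ 3 * (1 + Real.log Y) * HR := by gcongr
    _ = 8 ^ (7 * n) * M ^ 3 * (1 + Real.log Y) * HR := by
        rw [hc, ← pow_add]; congr 4; ring_nf

end Pool.Agent.H8.NoPt
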