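import Pool.Agent.H8.NoPt.Main
import Pool.Agent.H72.ES.Normalize

/-! # The large points: input from `Pool.Agent.H72.ES` -/

namespace Pool.Agent.H8.NoPt

open Finset Polynomial Pool.Agent.H72.ES

theorem leadQ_eq (n : ℕ) (G : ℕ → ℕ → ℤ) : leadQ n G = (lead n G).map (Int.castRingHom ℚ) := by
  unfold leadQ lead
  rw [Polynomial.map_sum]
  refine Finset.sum_congr rfl fun j _ => ?_
  simp

theorem bigPts (n : ℕ) (hn : 4 ≤ n) : BigPts n := by
  intro H hH G hG hI S hS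
  have h1 := main_count hn hH G hG hI.1 (by rw [leadQ_eq]; exact hI.2) S
    (fun P hP => ⟨(hS P hP).2, (hS P hP).1⟩)
  refine h1.trans ?_
  gcongr
  norm_num

/-- almost all polynomials of degree at most `n` have no integer zero -/
theorem almost_all (n : ℕ) (hn : 4 ≤ n) : ∃ C : ℝ, ∀ H : ℕ, 1 ≤ H →
    (({F ∈ PolyBox n H | ∃ x y : ℤ, MvPolynomial.eval ![x, y] F = 0}.ncard : ℕ) : ℝ) ≤
      C * (H : ℝ) ^ (-(1 / 4 : ℝ)) * ((PolyBox n H).ncard : ℝ) :=
  poly_count n hn (bigPts n hn)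

end Pool.Agent.H8.NoPt
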