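import Mathlib

/-! # [NP-FIBER] Counting vectors in a box by fibers

`S` is a set of integer vectors with entries in `[-H,H]`. If for every choice `c` of the coordinates
outside `p` at most `m` vectors of `S` agree with `c` outside `p`, then
`#S ≤ m (2H+1)^(number of coordinates outside p)`. Proof: map `a ↦` its restriction to
`{i // ¬ p i}`; the image lies in `Fintype.piFinset fun _ => Icc (-H) H`, of cardinality
`(2H+1)^(...)`; every fiber has at most `m` elements (take `c` = any element of the fiber, or an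
arbitrary extension); `Finset.card_eq_sum_card_fiberwise`. -/

namespace Pool.Agent.H8.NoPt

open Finset

theorem fiber_count {ι : Type*} [Fintype ι] [DecidableEq ι] (p : ι → Prop) [DecidablePred p]
    (H : ℕ) (S : Finset (ι → ℤ)) (hS : ∀ a ∈ S, ∀ i, |a i| ≤ (H : ℤ)) (m : ℝ) (hm0 : 0 ≤ m)
    (hm : ∀ c : ι → ℤ, (∀ i, |c i| ≤ (H : ℤ)) → ∀ T : Finset (ι → ℤ),
      (∀ a ∈ T, a ∈ S ∧ ∀ i, ¬ p i → a i = c i) → (T.card : ℝ) ≤ m) :
    (S.card : ℝ) ≤ m * (2 * H + 1 : ℝ) ^ (Fintype.card {i // ¬ p i}) := by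
  let r : (ι → ℤ) → ({i // ¬ p i} → ℤ) := fun a i => a i.1
  let B : Finset ({i // ¬ p i} → ℤ) := Fintype.piFinset fun _ => Icc (-(H : ℤ)) H
  have hB : B.card = (2 * H + 1) ^ (Fintype.card {i // ¬ p i}) := by
    simp only [B, Fintype.card_piFinset, Int.card_Icc, prod_const, card_univ]
    congr 1
    omega
  have hmaps : ∀ a ∈ S, r a ∈ B := by
    intro a ha
    simp only [B, r, Fintype.mem_piFinset, mem_Icc]
    intro i
    exact abs_le.1 (hS a ha i.1)
  rw [card_eq_sum_card_fiberwise hmaps]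
  push_cast
  have h1 : ∀ b ∈ B, ((#{a ∈ S | r a = b} : ℕ) : ℝ) ≤ m := by
    intro b hb
    by_cases hne : ({a ∈ S | r a = b} : Finset _).Nonempty
    · obtain ⟨c, hc⟩ := hne
      rw [mem_filter] at hc
      refine hm c (hS c hc.1) _ ?_
      intro a ha
      rw [mem_filter] at ha
      refine ⟨ha.1, fun i hi => ?_⟩
      have := congrFun (ha.2.trans hc.2.symm) ⟨i, hi⟩
      exact this
    · rw [not_nonempty_iff_eq_empty] at hne
      rw [hne]
      simpa using hm0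
  refine (sum_le_sum h1).trans ?_
  rw [sum_const, nsmul_eq_mul, hB]
  push_cast
  exact (mul_comm _ _).le

/-- number of integers in a real interval (in the form used for the counts) -/
theorem card_int_ball (T : Finset ℤ) (c r : ℝ) (hr : 0 ≤ r) (h : ∀ v ∈ T, |(v : ℝ) - c| ≤ r) :
    (T.card : ℝ) ≤ 2 * r + 1 := by
  have h1 : T ⊆ Icc ⌈c - r⌉ ⌊c + r⌋ := by
    intro v hv
    have := abs_le.1 (h v hv)
    rw [mem_Icc, Int.ceil_le, Int.le_floor]
    constructor <;> linarith [this.1, this.2]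
  have h2 : (T.card : ℝ) ≤ ((Icc ⌈c - r⌉ ⌊c + r⌋).card : ℝ) := by exact_mod_cast card_le_card h1
  refine h2.trans ?_
  rw [Int.card_Icc]
  have h3 : (((⌊c + r⌋ + 1 - ⌈c - r⌉).toNat : ℕ) : ℝ) =
      max ((⌊c + r⌋ : ℝ) + 1 - ⌈c - r⌉) 0 := by
    have : (((⌊c + r⌋ + 1 - ⌈c - r⌉).toNat : ℕ) : ℤ) = max (⌊c + r⌋ + 1 - ⌈c - r⌉) 0 :=
      Int.toNat_eq_max _
    have h4 : ((((⌊c + r⌋ + 1 - ⌈c - r⌉).toNat : ℕ) : ℤ) : ℝ) =
      ((max (⌊c + r⌋ + 1 - ⌈c - r⌉) 0 : ℤ) : ℝ) := by rw [this]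
    push_cast at h4
    exact h4
  rw [h3]
  apply max_le
  · have h5 := Int.floor_le (c + r)
    have h6 := Int.le_ceil (c - r)
    linarith
  · linarith

end Pool.Agent.H8.NoPt
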