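import Pool.Agent.H8.NoPt.Gelf

/-! # [NP-REDC] Few polynomials are reducible

`T` a finite set of integer polynomials of degree exactly `n`, coefficients `≤ H`, not irreducible
over `ℚ`. Then `#T ≤ C H^n √H`.
Proof. By Gauss (`Polynomial.IsPrimitive.irreducible_iff_irreducible_map_fraction_map` applied to
the primitive part, or directly): `p = g h` in `ℤ[X]` with `g`, `h` of degrees `k`, `n - k`,
`1 ≤ k ≤ n - 1`. (A factorisation `p = G H` over `ℚ` into non-units: degrees between `1` and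
`n - 1`; clear denominators. Another route: if `p = c q`, `q = primPart p` primitive, `q` not
irreducible over `ℚ` gives a nontrivial factorisation `q = g h` in `ℤ[X]`, both factors of positive
degree because `q` is primitive; then `p = (c g) h`.)
Let `A = max |g_i|`, `B = max |h_j|` (positive integers). `gelfond`: `A B ≤ T₀ := 2^n (n+1) H`.
Exchange `g` and `h` so that `A ≤ B`, so `A² ≤ T₀`; now `g` has degree `k` for some
`1 ≤ k ≤ n - 1`. For given `k` and `A`: the number of `g` of degree `≤ k` with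
`max |g_i| = A` is at most `(k+1) * 2 * (2A+1)^k ≤ 2 (n+1) 3^n A^k` (choose the coefficient equal to
`±A`, then the other `k`), the number of `h` of degree `≤ n-k` with coefficients `≤ T₀/A` is at most
`(2T₀/A + 1)^(n-k+1) ≤ (3 T₀/A)^(n-k+1)`. As `A ≤ T₀/A` we have
`A^(k-1) ≤ (T₀/A)^(k-1)`, so the product is
`≤ C' A (T₀/A)^n ≤ C' T₀^n / A^(n-1) ≤ C' T₀^n`. Sum over `A ≤ √T₀` (at most `√T₀` values) and
`k ≤ n`: `≤ n C' T₀^n √T₀ ≤ C H^n √H`. -/

namespace Pool.Agent.H8.NoPt

open Polynomial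

namespace RedC

/-- a nontrivial factorisation over the integers -/
lemma exists_factor {n : ℕ} (hn : 2 ≤ n) {p : ℤ[X]} (hp : p.natDegree = n)
    (hr : ¬ Irreducible (p.map (Int.castRingHom ℚ))) :
    ∃ g h : ℤ[X], p = g * h ∧ 1 ≤ g.natDegree ∧ 1 ≤ h.natDegree := by
  have hp0 : p ≠ 0 := by
    rintro rfl
    simp at hp
    omega
  have hc : p.content ≠ 0 := by
    rwa [Ne, content_eq_zero_iff]
  have hq : p.primPart.IsPrimitive := isPrimitive_primPart p
  have hqd : p.primPart.natDegree = n := by rw [natDegree_primPart, hp]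
  have h1 : ¬ Irreducible p.primPart := by
    rw [IsPrimitive.Int.irreducible_iff_irreducible_map_cast hq]
    intro h2
    apply hr
    have e : p.map (Int.castRingHom ℚ) =
        C (Int.castRingHom ℚ p.content) * p.primPart.map (Int.castRingHom ℚ) := by
      conv_lhs => rw [p.eq_C_content_mul_primPart]
      rw [Polynomial.map_mul, map_C]
    rw [e]
    have hu : IsUnit (C (Int.castRingHom ℚ p.content) : ℚ[X]) := by
      rw [isUnit_C, isUnit_iff_ne_zero, eq_intCast]
      exact_mod_cast hc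
    exact (irreducible_isUnit_mul hu).2 h2
  have hnu : ¬ IsUnit p.primPart := by
    intro hu
    have := natDegree_eq_zero_of_isUnit hu
    omega
  rw [irreducible_iff] at h1
  push Not at h1
  obtain ⟨a, b, hab, ha, hb⟩ := h1 hnu
  have key : ∀ a b : ℤ[X], p.primPart = a * b → ¬ IsUnit a → 1 ≤ a.natDegree := by
    intro a b hab ha
    by_contra hlt
    have h0 : a.natDegree = 0 := by omega
    apply ha
    rw [eq_C_of_natDegree_eq_zero h0] at hab ⊢
    rw [isUnit_C]
    exact hq _ ⟨b, hab⟩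
  refine ⟨C p.content * a, b, ?_, ?_, ?_⟩
  · rw [mul_assoc, ← hab]
    exact p.eq_C_content_mul_primPart
  · rw [natDegree_C_mul hc]
    exact key a b hab ha
  · exact key b a (by rw [hab, mul_comm]) hb

/-- the polynomial with given coefficients -/
noncomputable def pol (m : ℕ) (v : Fin (m + 1) → ℤ) : ℤ[X] := ∑ i, C (v i) * X ^ (i : ℕ)

lemma pol_coeff {m : ℕ} {g : ℤ[X]} (h : g.natDegree ≤ m) : pol m (fun i => g.coeff i) = g := by
  unfold pol
  conv_rhs => rw [g.as_sum_range_C_mul_X_pow' (n := m + 1) (by omega)]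
  rw [Finset.sum_range]

open Classical in
/-- polynomials of degree at most `m` with coefficients at most `B` -/
noncomputable def Hs (m B : ℕ) : Finset ℤ[X] :=
  (Fintype.piFinset fun _ : Fin (m + 1) => Finset.Icc (-(B : ℤ)) B).image (pol m)

open Classical in
/-- polynomials of degree at most `k` whose largest coefficient is `A` -/
noncomputable def Gs (k A : ℕ) : Finset ℤ[X] :=
  Finset.univ.biUnion fun i0 : Fin (k + 1) =>
    (Fintype.piFinset fun i : Fin (k + 1) =>
      if i = i0 then ({(A : ℤ), -(A : ℤ)} : Finset ℤ) else Finset.Icc (-(A : ℤ)) A).image (pol k)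

lemma card_Icc' (B : ℕ) : (Finset.Icc (-(B : ℤ)) B).card = 2 * B + 1 := by
  rw [Int.card_Icc]
  omega

lemma card_Hs (m B : ℕ) : (Hs m B).card ≤ (2 * B + 1) ^ (m + 1) := by
  classical
  unfold Hs
  refine Finset.card_image_le.trans (le_of_eq ?_)
  rw [Fintype.card_piFinset]
  simp only [card_Icc', Finset.prod_const, Finset.card_univ, Fintype.card_fin]

lemma card_Gs (k A : ℕ) : (Gs k A).card ≤ (k + 1) * (2 * (2 * A + 1) ^ k) := by
  classical
  unfold Gs
  refine Finset.card_biUnion_le.trans ?_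
  have h1 : ∀ i0 : Fin (k + 1), ((Fintype.piFinset fun i : Fin (k + 1) =>
      if i = i0 then ({(A : ℤ), -(A : ℤ)} : Finset ℤ) else Finset.Icc (-(A : ℤ)) A).image
        (pol k)).card ≤ 2 * (2 * A + 1) ^ k := by
    intro i0
    refine Finset.card_image_le.trans ?_
    rw [Fintype.card_piFinset]
    rw [← Finset.mul_prod_erase Finset.univ _ (Finset.mem_univ i0)]
    refine Nat.mul_le_mul ?_ (le_of_eq ?_)
    · rw [if_pos rfl]
      exact Finset.card_le_two
    · rw [Finset.prod_congr rfl (g := fun _ => 2 * A + 1)]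
      · rw [Finset.prod_const, Finset.card_erase_of_mem (Finset.mem_univ i0), Finset.card_univ,
          Fintype.card_fin]
        rfl
      · intro i hi
        rw [if_neg (Finset.ne_of_mem_erase hi), card_Icc']
  refine (Finset.sum_le_sum fun i0 _ => h1 i0).trans (le_of_eq ?_)
  rw [Finset.sum_const, Finset.card_univ, Fintype.card_fin, smul_eq_mul]

lemma mem_Hs {m B : ℕ} {g : ℤ[X]} (hd : g.natDegree ≤ m) (hB : ∀ i, (g.coeff i).natAbs ≤ B) :
    g ∈ Hs m B := by
  classical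
  unfold Hs
  rw [Finset.mem_image]
  refine ⟨fun i => g.coeff i, ?_, pol_coeff hd⟩
  rw [Fintype.mem_piFinset]
  intro i
  rw [Finset.mem_Icc]
  have := hB i
  omega

lemma mem_Gs {k A : ℕ} {g : ℤ[X]} (hd : g.natDegree ≤ k) (hA : ∀ i, (g.coeff i).natAbs ≤ A)
    {i0 : ℕ} (hi0 : i0 ≤ k) (he : (g.coeff i0).natAbs = A) : g ∈ Gs k A := by
  classical
  unfold Gs
  rw [Finset.mem_biUnion]
  refine ⟨⟨i0, by omega⟩, Finset.mem_univ _, ?_⟩
  rw [Finset.mem_image]
  refine ⟨fun i => g.coeff i, ?_, pol_coeff hd⟩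
  rw [Fintype.mem_piFinset]
  intro i
  split_ifs with h
  · rw [h]
    simp only [Finset.mem_insert, Finset.mem_singleton]
    omega
  · rw [Finset.mem_Icc]
    have := hA i
    omega

/-- the height -/
def hgt (n : ℕ) (g : ℤ[X]) : ℕ := (Finset.range (n + 1)).sup fun i => (g.coeff i).natAbs

lemma hgt_le {n : ℕ} {g : ℤ[X]} (hd : g.natDegree ≤ n) (i : ℕ) :
    (g.coeff i).natAbs ≤ hgt n g := by
  by_cases h : i ≤ n
  · exact Finset.le_sup (f := fun i => (g.coeff i).natAbs) (Finset.mem_range.2 (by omega))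
  · rw [coeff_eq_zero_of_natDegree_lt (by omega)]
    simp

lemma hgt_att (n : ℕ) (g : ℤ[X]) : ∃ i, (g.coeff i).natAbs = hgt n g := by
  obtain ⟨i, -, hi⟩ := Finset.exists_mem_eq_sup (Finset.range (n + 1)) ⟨0, by simp⟩
    (fun i => (g.coeff i).natAbs)
  exact ⟨i, hi.symm⟩

lemma hgt_pos {n : ℕ} {g : ℤ[X]} (hd : g.natDegree ≤ n) (h0 : g ≠ 0) : 1 ≤ hgt n g := by
  have h1 := hgt_le hd g.natDegree
  have h2 : g.coeff g.natDegree ≠ 0 := by
    rw [coeff_natDegree]
    exact leadingCoeff_ne_zero.2 h0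
  have h3 : 1 ≤ (g.coeff g.natDegree).natAbs := Int.natAbs_pos.2 h2
  omega

open Classical in
/-- the products -/
noncomputable def Cov (n T : ℕ) : Finset ℤ[X] :=
  (Finset.Icc 1 (n - 1)).biUnion fun k => (Finset.Icc 1 (Nat.sqrt T)).biUnion fun A =>
    Finset.image₂ (fun g h => g * h) (Gs k A) (Hs (n - k) (T / A))

lemma mem_Cov {n T : ℕ} {g h : ℤ[X]} (hg : 1 ≤ g.natDegree) (hh : 1 ≤ h.natDegree)
    (hd : g.natDegree + h.natDegree = n) (hT : hgt n g * hgt n h ≤ T) (hle : hgt n g ≤ hgt n h) :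
    g * h ∈ Cov n T := by
  classical
  have hg0 : g ≠ 0 := by
    rintro rfl
    simp at hg
  have hA := hgt_pos (n := n) (g := g) (by omega) hg0
  unfold Cov
  rw [Finset.mem_biUnion]
  refine ⟨g.natDegree, Finset.mem_Icc.2 ⟨hg, by omega⟩, ?_⟩
  rw [Finset.mem_biUnion]
  refine ⟨hgt n g, Finset.mem_Icc.2 ⟨hA, ?_⟩, ?_⟩
  · rw [Nat.le_sqrt]
    exact (Nat.mul_le_mul_left _ hle).trans hT
  · rw [Finset.mem_image₂]
    obtain ⟨i0, hi0⟩ := hgt_att n g
    refine ⟨g, mem_Gs le_rfl (fun i => hgt_le (by omega) i) (i0 := i0) ?_ hi0, h,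
      mem_Hs (by omega) (fun i => ?_), rfl⟩
    · by_contra hlt
      rw [coeff_eq_zero_of_natDegree_lt (by omega)] at hi0
      simp at hi0
      omega
    · refine (hgt_le (n := n) (by omega) i).trans ?_
      rw [Nat.le_div_iff_mul_le (by omega), mul_comm]
      exact hT

lemma card_Cov (n T : ℕ) (hn : 2 ≤ n) :
    ((Cov n T).card : ℝ) ≤ 2 * n * (n + 1) * 3 ^ (n + 1) * (T : ℝ) ^ n * Real.sqrt T := by
  classical
  have h1 : ((Cov n T).card : ℝ) ≤ ∑ k ∈ Finset.Icc 1 (n - 1), ∑ A ∈ Finset.Icc 1 (Nat.sqrt T),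
      (2 * (n + 1) * 3 ^ (n + 1) * (T : ℝ) ^ n) := by
    have h2 : (Cov n T).card ≤ ∑ k ∈ Finset.Icc 1 (n - 1), ∑ A ∈ Finset.Icc 1 (Nat.sqrt T),
        (((k + 1) * (2 * (2 * A + 1) ^ k)) * (2 * (T / A) + 1) ^ (n - k + 1)) := by
      unfold Cov
      refine Finset.card_biUnion_le.trans (Finset.sum_le_sum fun k _ => ?_)
      refine Finset.card_biUnion_le.trans (Finset.sum_le_sum fun A _ => ?_)
      refine (Finset.card_image₂_le _ _ _).trans ?_
      exact Nat.mul_le_mul (card_Gs k A) (card_Hs (n - k) (T / A))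
    refine (Nat.cast_le.2 h2).trans ?_
    push_cast
    refine Finset.sum_le_sum fun k hk => Finset.sum_le_sum fun A hA => ?_
    rw [Finset.mem_Icc] at hk hA
    have hA1 : (1 : ℝ) ≤ A := by exact_mod_cast hA.1
    have hA0 : (0 : ℝ) < A := by linarith
    have hAT : A * A ≤ T := Nat.le_sqrt.1 hA.2
    have hAT' : (A : ℝ) ≤ T / A := by
      rw [le_div_iff₀ hA0]
      exact_mod_cast hAT
    have hTA1 : (1 : ℝ) ≤ T / A := hA1.trans hAT'
    have hdiv : (((T / A : ℕ) : ℝ)) ≤ T / A := Nat.cast_div_le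
    have e1 : (2 * (A : ℝ) + 1) ^ k ≤ 3 ^ k * (A : ℝ) ^ k := by
      rw [← mul_pow]
      exact pow_le_pow_left₀ (by positivity) (by linarith) k
    have e2 : (2 * (((T / A : ℕ) : ℝ)) + 1) ^ (n - k + 1) ≤
        3 ^ (n - k + 1) * ((T : ℝ) / A) ^ (n - k + 1) := by
      rw [← mul_pow]
      exact pow_le_pow_left₀ (by positivity) (by linarith) _
    have e3 : (A : ℝ) ^ k * ((T : ℝ) / A) ^ (n - k + 1) ≤ (T : ℝ) ^ n := by
      have h4 : (A : ℝ) ^ k = A * (A : ℝ) ^ (k - 1) := by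
        rw [← pow_succ']
        congr 1
        omega
      have h5 : (A : ℝ) ^ (k - 1) ≤ ((T : ℝ) / A) ^ (k - 1) := pow_le_pow_left₀ hA0.le hAT' _
      calc (A : ℝ) ^ k * ((T : ℝ) / A) ^ (n - k + 1)
          ≤ A * ((T : ℝ) / A) ^ (k - 1) * ((T : ℝ) / A) ^ (n - k + 1) := by
            rw [h4]
            exact mul_le_mul_of_nonneg_right (mul_le_mul_of_nonneg_left h5 hA0.le)
              (by positivity)
        _ = A * ((T : ℝ) / A) ^ n := by
            rw [mul_assoc, ← pow_add]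
            congr 2
            omega
        _ = (T : ℝ) ^ n / (A : ℝ) ^ (n - 1) := by
            rw [div_pow]
            have : (A : ℝ) ^ n = A * (A : ℝ) ^ (n - 1) := by
              rw [← pow_succ']
              congr 1
              omega
            rw [this]
            field_simp
        _ ≤ (T : ℝ) ^ n := div_le_self (by positivity) (one_le_pow₀ hA1)
    have hkn : (k : ℝ) + 1 ≤ n + 1 := by
      have : k ≤ n := by omega
      have : (k : ℝ) ≤ n := by exact_mod_cast this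
      linarith
    have e4 : (3 : ℝ) ^ k * 3 ^ (n - k + 1) = 3 ^ (n + 1) := by
      rw [← pow_add]
      congr 1
      omega
    calc ((k : ℝ) + 1) * (2 * (2 * (A : ℝ) + 1) ^ k) * (2 * (((T / A : ℕ) : ℝ)) + 1) ^ (n - k + 1)
        ≤ ((n : ℝ) + 1) * (2 * (3 ^ k * (A : ℝ) ^ k)) *
          (3 ^ (n - k + 1) * ((T : ℝ) / A) ^ (n - k + 1)) := by
          refine mul_le_mul (mul_le_mul hkn (mul_le_mul_of_nonneg_left e1 (by norm_num))
            (by positivity) (by positivity)) e2 (by positivity) (by positivity)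
      _ = 2 * (n + 1) * (3 ^ k * 3 ^ (n - k + 1)) *
          ((A : ℝ) ^ k * ((T : ℝ) / A) ^ (n - k + 1)) := by ring
      _ ≤ 2 * (n + 1) * 3 ^ (n + 1) * (T : ℝ) ^ n := by
          rw [e4]
          exact mul_le_mul_of_nonneg_left e3 (by positivity)
  refine h1.trans ?_
  rw [Finset.sum_const, Finset.sum_const, nsmul_eq_mul, nsmul_eq_mul, Nat.card_Icc, Nat.card_Icc]
  have h6 : ((n - 1 + 1 - 1 : ℕ) : ℝ) ≤ n := by
    exact_mod_cast (by omega : n - 1 + 1 - 1 ≤ n)
  have h7 : ((Nat.sqrt T + 1 - 1 : ℕ) : ℝ) ≤ Real.sqrt T := by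
    rw [Nat.add_sub_cancel]
    exact Real.nat_sqrt_le_real_sqrt
  calc ((n - 1 + 1 - 1 : ℕ) : ℝ) * (((Nat.sqrt T + 1 - 1 : ℕ) : ℝ) *
        (2 * (n + 1) * 3 ^ (n + 1) * (T : ℝ) ^ n))
      ≤ n * (Real.sqrt T * (2 * (n + 1) * 3 ^ (n + 1) * (T : ℝ) ^ n)) :=
        mul_le_mul h6 (mul_le_mul_of_nonneg_right h7 (by positivity)) (by positivity)
          (by positivity)
    _ = 2 * n * (n + 1) * 3 ^ (n + 1) * (T : ℝ) ^ n * Real.sqrt T := by ring

end RedC

open RedC

theorem red_count (n : ℕ) (hn : 2 ≤ n) : ∃ C : ℝ, 0 < C ∧ ∀ H : ℕ, 1 ≤ H → ∀ T : Finset ℤ[X],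
    (∀ p ∈ T, p.natDegree = n ∧ (∀ i, |p.coeff i| ≤ (H : ℤ)) ∧
      ¬ Irreducible (p.map (Int.castRingHom ℚ))) →
    (T.card : ℝ) ≤ C * (H : ℝ) ^ n * Real.sqrt H := by
  classical
  set c0 : ℕ := 2 ^ n * (n + 1) with hc0
  have hc0' : 0 < c0 := by positivity
  refine ⟨2 * n * (n + 1) * 3 ^ (n + 1) * (c0 : ℝ) ^ n * Real.sqrt c0, ?_, ?_⟩
  · have : (0 : ℝ) < n := by
      have : 0 < n := by omega
      exact_mod_cast this
    have h2 : (0 : ℝ) < c0 := by exact_mod_cast hc0'
    positivity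
  intro H hH T hT
  have hsub : T ⊆ Cov n (c0 * H) := by
    intro p hp
    obtain ⟨hd, hb, hr⟩ := hT p hp
    obtain ⟨g, h, hgh, hg, hh⟩ := exists_factor hn hd hr
    have hp0 : p ≠ 0 := by
      rintro rfl
      simp at hd
      omega
    have hgh0 : g * h ≠ 0 := by rw [← hgh]; exact hp0
    have hg0 : g ≠ 0 := left_ne_zero_of_mul hgh0
    have hh0 : h ≠ 0 := right_ne_zero_of_mul hgh0
    have hdeg : g.natDegree + h.natDegree = n := by
      rw [← natDegree_mul hg0 hh0, ← hgh, hd]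
    have hT1 : hgt n g * hgt n h ≤ c0 * H := by
      obtain ⟨i, hi⟩ := hgt_att n g
      obtain ⟨j, hj⟩ := hgt_att n h
      have h1 := gelfond n g h hgh0 (by rw [← hgh, hd]) H (fun k => by
        rw [← hgh]
        have := hb k
        have h2 : (|p.coeff k| : ℝ) ≤ H := by exact_mod_cast this
        exact h2) i j
      rw [← hi, ← hj]
      have e1 : (((g.coeff i).natAbs : ℕ) : ℝ) = |(g.coeff i : ℝ)| := by
        rw [Nat.cast_natAbs, Int.cast_abs]
      have e2 : (((h.coeff j).natAbs : ℕ) : ℝ) = |(h.coeff j : ℝ)| := by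
        rw [Nat.cast_natAbs, Int.cast_abs]
      rw [← e1, ← e2] at h1
      have h3 : (((g.coeff i).natAbs * (h.coeff j).natAbs : ℕ) : ℝ) ≤ ((c0 * H : ℕ) : ℝ) := by
        rw [hc0]
        push_cast

        linarith
      exact_mod_cast h3
    rcases le_total (hgt n g) (hgt n h) with hle | hle
    · rw [hgh]
      exact mem_Cov hg hh hdeg hT1 hle
    · rw [hgh, mul_comm g h]
      exact mem_Cov hh hg (by omega) (by rw [mul_comm]; exact hT1) hle
  calc (T.card : ℝ) ≤ ((Cov n (c0 * H)).card : ℝ) := by exact_mod_cast Finset.card_le_card hsub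
    _ ≤ 2 * n * (n + 1) * 3 ^ (n + 1) * ((c0 * H : ℕ) : ℝ) ^ n * Real.sqrt ((c0 * H : ℕ) : ℝ) :=
        card_Cov n (c0 * H) hn
    _ = 2 * n * (n + 1) * 3 ^ (n + 1) * (c0 : ℝ) ^ n * Real.sqrt c0 * (H : ℝ) ^ n *
        Real.sqrt H := by
        push_cast
        rw [mul_pow, Real.sqrt_mul (by positivity)]
        ring

end Pool.Agent.H8.NoPt
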