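import Pool.Agent.H8.NoPt.Defs
import Pool.Agent.H8.NoPt.Fiber
import Pool.Agent.H8.NoPt.RedC

/-! # [NP-IRRC] Most leading forms are irreducible

`fiber_count` with `p i := i.1.1 + i.1.2 = n` (the `n+1` coordinates of the leading form): for a
fixed `c`, the vectors `a` with `a = c` outside `p` and `¬ LeadIrr` are determined by
`lead n (arr a)` (its coefficient `j ≤ n` is `a (n-j, j)`). Either `a (0,n) = 0`: at most
`(2H+1)^n ≤ 3^n H^n ≤ 3^n H^n √H` of them; or `lead n (arr a)` has degree exactly `n` and is not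
irreducible over `ℚ`: `red_count`. So `m = C' H^n √H ≤ C' (2H+1)^(n+1) / √H`, and
`card {i // ¬ p i} + (n + 1) = card (Ix n)`. -/

namespace Pool.Agent.H8.NoPt

open Finset Polynomial Pool.Agent.H72.ES

namespace IrrCAux

theorem lead_coeff (n : ℕ) (F : ℕ → ℕ → ℤ) (k : ℕ) :
    (lead n F).coeff k = if k ≤ n then F (n - k) k else 0 := by
  unfold lead
  rw [finsetSum_coeff]
  simp only [coeff_C_mul_X_pow]
  by_cases hk : k ≤ n
  · rw [if_pos hk, Finset.sum_eq_single k]
    · simp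
    · intro b _ hb
      rw [if_neg (fun h => hb h.symm)]
    · intro h
      exact absurd (Finset.mem_range.2 (by omega)) h
  · rw [if_neg hk]
    refine Finset.sum_eq_zero fun b hb => ?_
    have := Finset.mem_range.1 hb
    rw [if_neg (by omega)]

theorem ext_of {n : ℕ} {a b c : Ix n → ℤ}
    (ha : ∀ i : Ix n, ¬ ((i.1.1 : ℕ) + (i.1.2 : ℕ) = n) → a i = c i)
    (hb : ∀ i : Ix n, ¬ ((i.1.1 : ℕ) + (i.1.2 : ℕ) = n) → b i = c i)
    (h : ∀ j, (hj : j ≤ n) → a (ix n (n - j) j (by omega)) = b (ix n (n - j) j (by omega))) :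
    a = b := by
  funext i
  by_cases hi : (i.1.1 : ℕ) + (i.1.2 : ℕ) = n
  · have h2 : (i.1.2 : ℕ) ≤ n := by omega
    have h3 := h _ h2
    have h4 : ix n (n - (i.1.2 : ℕ)) (i.1.2 : ℕ) (by omega) = i := by
      apply Subtype.ext
      apply Prod.ext
      · apply Fin.ext
        simp only [ix]
        omega
      · apply Fin.ext
        simp only [ix]
    rwa [h4] at h3
  · rw [ha i hi, hb i hi]

theorem arr_lead {n : ℕ} (a : Ix n → ℤ) (j : ℕ) (hj : j ≤ n) :
    arr a (n - j) j = a (ix n (n - j) j (by omega)) := by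
  unfold arr
  rw [dif_pos]

theorem card_ix (n : ℕ) :
    Fintype.card {i : Ix n // ¬ ((i.1.1 : ℕ) + (i.1.2 : ℕ) = n)} + (n + 1) ≤
      Fintype.card (Ix n) := by
  have h1 : Fintype.card (Fin (n + 1)) ≤
      Fintype.card {i : Ix n // ((i.1.1 : ℕ) + (i.1.2 : ℕ) = n)} := by
    refine Fintype.card_le_of_injective
      (fun j => ⟨ix n (n - j) j (by omega), by simp only [ix]; omega⟩) ?_
    intro i j hij
    have := congrArg (fun t => (t.1.1.2 : Fin (n + 1))) hij
    simpa [ix] using this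
  have h2 := Fintype.card_congr
    (Equiv.sumCompl (fun i : Ix n => ((i.1.1 : ℕ) + (i.1.2 : ℕ) = n)))
  rw [Fintype.card_sum] at h2
  rw [Fintype.card_fin] at h1
  omega

theorem card_zero {n H : ℕ} (hH : 1 ≤ H) (c : Ix n → ℤ) (T : Finset (Ix n → ℤ))
    (hT : ∀ a ∈ T, (∀ i, |a i| ≤ (H : ℤ)) ∧
      (∀ i : Ix n, ¬ ((i.1.1 : ℕ) + (i.1.2 : ℕ) = n) → a i = c i) ∧ arr a 0 n = 0) :
    (T.card : ℝ) ≤ 3 ^ n * (H : ℝ) ^ n := by
  classical
  let f : (Ix n → ℤ) → (Fin n → ℤ) := fun a j => a (ix n (n - j) j (by omega))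
  have hinj : Set.InjOn f T := by
    intro a ha b hb hab
    have ha := hT a ha
    have hb := hT b hb
    refine ext_of ha.2.1 hb.2.1 ?_
    intro j hj
    rcases Nat.lt_or_ge j n with h | h
    · have := congrFun hab ⟨j, h⟩
      simpa [f] using this
    · have hjn : j = n := by omega
      subst hjn
      have e1 := arr_lead a j le_rfl
      have e2 := arr_lead b j le_rfl
      have e3 := ha.2.2
      have e4 := hb.2.2
      rw [← e1, ← e2, Nat.sub_self, e3, e4]
  have himg : T.image f ⊆ Fintype.piFinset fun _ : Fin n => Icc (-(H : ℤ)) H := by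
    intro g hg
    obtain ⟨a, ha, rfl⟩ := Finset.mem_image.1 hg
    rw [Fintype.mem_piFinset]
    intro j
    rw [Finset.mem_Icc]
    exact abs_le.1 ((hT a ha).1 _)
  have h1 : T.card = (T.image f).card := (Finset.card_image_of_injOn hinj).symm
  have h2 := Finset.card_le_card himg
  rw [Fintype.card_piFinset, Finset.prod_const, Finset.card_univ, Fintype.card_fin,
    Int.card_Icc] at h2
  have h3 : ((H : ℤ) + 1 - (-(H : ℤ))).toNat = 2 * H + 1 := by omega
  rw [h3, ← h1] at h2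
  have h4 : 2 * H + 1 ≤ 3 * H := by omega
  have h5 : T.card ≤ (3 * H) ^ n := h2.trans (Nat.pow_le_pow_left h4 n)
  rw [← mul_pow]
  exact_mod_cast h5

end IrrCAux

open IrrCAux in
theorem irr_count (n : ℕ) (hn : 2 ≤ n) : ∃ C : ℝ, 0 < C ∧ ∀ H : ℕ, 1 ≤ H →
    ∀ S : Finset (Ix n → ℤ), (∀ a ∈ S, (∀ i, |a i| ≤ (H : ℤ)) ∧ ¬ LeadIrr n (arr a)) →
    (S.card : ℝ) ≤ C * (2 * H + 1 : ℝ) ^ (Fintype.card (Ix n)) / Real.sqrt H := by
  classical
  obtain ⟨C0, hC0, hred⟩ := red_count n hn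
  refine ⟨C0 + 3 ^ n, by positivity, ?_⟩
  intro H hH S hS
  have hHr : (1 : ℝ) ≤ (H : ℝ) := by exact_mod_cast hH
  have hs1 : 1 ≤ Real.sqrt H := by
    rw [Real.one_le_sqrt]; exact hHr
  have hs0 : 0 < Real.sqrt H := by linarith
  have hss : Real.sqrt H * Real.sqrt H = H := Real.mul_self_sqrt (by linarith)
  have hmain := fiber_count (fun i : Ix n => ((i.1.1 : ℕ) + (i.1.2 : ℕ) = n)) H S
    (fun a ha => (hS a ha).1) ((C0 + 3 ^ n) * (H : ℝ) ^ n * Real.sqrt H) (by positivity) ?_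
  · refine hmain.trans ?_
    rw [le_div_iff₀ hs0]
    have hc := card_ix n
    set k := Fintype.card {i : Ix n // ¬ ((i.1.1 : ℕ) + (i.1.2 : ℕ) = n)} with hk
    have h1 : (1 : ℝ) ≤ 2 * H + 1 := by linarith
    have h2 : (2 * H + 1 : ℝ) ^ (k + (n + 1)) ≤ (2 * H + 1 : ℝ) ^ (Fintype.card (Ix n)) :=
      pow_le_pow_right₀ h1 hc
    have h3 : (H : ℝ) ^ (n + 1) ≤ (2 * H + 1 : ℝ) ^ (n + 1) :=
      pow_le_pow_left₀ (by linarith) (by linarith) _
    have hCp : 0 < C0 + 3 ^ n := by positivity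
    calc (C0 + 3 ^ n) * (H : ℝ) ^ n * Real.sqrt H * (2 * H + 1 : ℝ) ^ k * Real.sqrt H
        = (C0 + 3 ^ n) * ((H : ℝ) ^ n * (Real.sqrt H * Real.sqrt H)) * (2 * H + 1 : ℝ) ^ k := by
          ring
      _ = (C0 + 3 ^ n) * ((H : ℝ) ^ (n + 1)) * (2 * H + 1 : ℝ) ^ k := by rw [hss]; ring
      _ ≤ (C0 + 3 ^ n) * ((2 * H + 1 : ℝ) ^ (n + 1)) * (2 * H + 1 : ℝ) ^ k := by gcongr
      _ = (C0 + 3 ^ n) * (2 * H + 1 : ℝ) ^ (k + (n + 1)) := by ring
      _ ≤ _ := by gcongr
  · intro c _ T hT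
    have hsplit := Finset.card_filter_add_card_filter_not (s := T) (fun a => arr a 0 n = 0)
    have hA : ((T.filter (fun a => arr a 0 n = 0)).card : ℝ) ≤ 3 ^ n * (H : ℝ) ^ n := by
      refine card_zero hH c _ ?_
      intro a ha
      obtain ⟨ha1, ha2⟩ := Finset.mem_filter.1 ha
      exact ⟨(hS a (hT a ha1).1).1, (hT a ha1).2, ha2⟩
    have hB : ((T.filter (fun a => ¬ arr a 0 n = 0)).card : ℝ) ≤
        C0 * (H : ℝ) ^ n * Real.sqrt H := by
      have hinj : Set.InjOn (fun a : Ix n → ℤ => lead n (arr a))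
          (T.filter (fun a => ¬ arr a 0 n = 0)) := by
        intro a ha b hb hab
        have ha := (Finset.mem_filter.1 ha).1
        have hb := (Finset.mem_filter.1 hb).1
        refine ext_of (hT a ha).2 (hT b hb).2 ?_
        intro j hj
        have := congrArg (fun P => Polynomial.coeff P j) hab
        simp only [lead_coeff, if_pos hj] at this
        rwa [arr_lead a j hj, arr_lead b j hj] at this
      rw [← Finset.card_image_of_injOn hinj]
      refine hred H hH _ ?_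
      intro P hP
      obtain ⟨a, ha, rfl⟩ := Finset.mem_image.1 hP
      obtain ⟨ha1, ha2⟩ := Finset.mem_filter.1 ha
      have haS := hS a (hT a ha1).1
      refine ⟨?_, ?_, ?_⟩
      · apply Polynomial.natDegree_eq_of_le_of_coeff_ne_zero
        · rw [Polynomial.natDegree_le_iff_coeff_eq_zero]
          intro k hk
          rw [lead_coeff, if_neg (by omega)]
        · rw [lead_coeff, if_pos le_rfl, Nat.sub_self]
          exact ha2
      · intro k
        rw [lead_coeff]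
        split_ifs with hk
        · rw [arr_lead a k hk]
          exact haS.1 _
        · simp
      · intro hirr
        exact haS.2 ⟨ha2, hirr⟩
    have hs : (T.card : ℝ) = ((T.filter (fun a => arr a 0 n = 0)).card : ℝ) +
        ((T.filter (fun a => ¬ arr a 0 n = 0)).card : ℝ) := by
      exact_mod_cast hsplit.symm
    rw [hs]
    have h4 : (3 : ℝ) ^ n * (H : ℝ) ^ n ≤ 3 ^ n * (H : ℝ) ^ n * Real.sqrt H := by
      have : 0 ≤ (3 : ℝ) ^ n * (H : ℝ) ^ n := by positivity
      nlinarith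
    nlinarith

end Pool.Agent.H8.NoPt
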