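import Pool.Agent.H8.NoPt.Defs
import Pool.Agent.H8.NoPt.Fiber

/-! # [NP-SIMPC] Few coefficient vectors have a leading form with a near double root

Let `b = 8^n`, `f = hp n (arr a)`, real coefficients `f_j = a (n-j, j)`; `u = f_1 = a (n-1,1)`,
`v = f_0 = a (n,0)` are two of the coordinates (`n ≥ 1`). `1 ≤ M`, `M² ≤ H`.
(1) If `¬ Simp` there is a real `z`, `|z| ≤ 1`, with `|f(z)| < H/M²`, `|f'(z)| < H/M`. Let
`N = ⌈M⌉`; some grid point `g = k/N`, `k` integer, `|k| ≤ N`, has `|z - g| ≤ 1/N ≤ 1/M`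
(round `z N` towards `0`). Taylor: `|f(g)| ≤ |f(z)| + |f'(z)|/M + b H/M² ≤ (2 + b) H/M²`,
`|f'(g)| ≤ |f'(z)| + b H/M ≤ (1 + b) H/M`.
(2) Fix the other coordinates and `k`: `f'(g) = u + (fixed)`, so at most
`2(1+b)H/M + 1 ≤ (2b+3) H/M` values of `u` (`card_int_ball`; `1 ≤ H/M² ≤ H/M`), and for each of
them `f(g) = v + (fixed)`, at most `2(2+b) H/M² + 1 ≤ (2b+5) H/M²` values of `v`.
(3) `2N + 1 ≤ 5M` values of `k`: in total at most `5 M (2b+3)(2b+5) H²/M³ ≤ 45 b² H²/M²` pairs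
`(u,v)`. Conclude with `fiber_count` (`p i := i = ix n n 0 _ ∨ i = ix n (n-1) 1 _`, so
`card {i // ¬ p i} = card (Ix n) - 2`) and `H² ≤ (2H+1)²`. -/

namespace Pool.Agent.H8.NoPt

open Finset Polynomial Pool.Agent.H72.ES

/-- real polynomial -/
private noncomputable def rp (n : ℕ) (F : ℕ → ℕ → ℤ) (x : ℝ) : ℝ :=
  ∑ j ∈ range (n + 1), (F (n - j) j : ℝ) * x ^ j

private noncomputable def rd (n : ℕ) (F : ℕ → ℕ → ℤ) (x : ℝ) : ℝ :=
  ∑ j ∈ range (n + 1), (F (n - j) j : ℝ) * (j * x ^ (j - 1))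

private theorem hp_eval (n : ℕ) (F : ℕ → ℕ → ℤ) (z : ℝ) :
    ‖(hp n F).eval (z : ℂ)‖ = |rp n F z| := by
  have : (hp n F).eval (z : ℂ) = ((rp n F z : ℝ) : ℂ) := by
    unfold hp lead rp
    simp [Polynomial.map_sum, Polynomial.eval_finsetSum]
  rw [this, Complex.norm_real, Real.norm_eq_abs]

private theorem hp_deriv (n : ℕ) (F : ℕ → ℕ → ℤ) (z : ℝ) :
    ‖(derivative (hp n F)).eval (z : ℂ)‖ = |rd n F z| := by
  have : (derivative (hp n F)).eval (z : ℂ) = ((rd n F z : ℝ) : ℂ) := by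
    unfold hp lead rd
    simp only [Polynomial.map_sum, Polynomial.derivative_sum, Polynomial.eval_finsetSum,
      Complex.ofReal_sum]
    refine Finset.sum_congr rfl fun j _ => ?_
    simp [Polynomial.derivative_X_pow]
  rw [this, Complex.norm_real, Real.norm_eq_abs]

private theorem pow_diff (g z : ℝ) (hg : |g| ≤ 1) (hz : |z| ≤ 1) (j : ℕ) :
    |g ^ j - z ^ j| ≤ j * |g - z| := by
  induction j with
  | zero => simp
  | succ j ih =>
    have e : g ^ (j + 1) - z ^ (j + 1) = g * (g ^ j - z ^ j) + (g - z) * z ^ j := by ring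
    rw [e]
    have h1 : |g * (g ^ j - z ^ j)| ≤ j * |g - z| := by
      rw [abs_mul]
      calc |g| * |g ^ j - z ^ j| ≤ 1 * |g ^ j - z ^ j| := by gcongr
        _ ≤ _ := by rw [one_mul]; exact ih
    have h2 : |(g - z) * z ^ j| ≤ |g - z| := by
      rw [abs_mul, abs_pow]
      calc |g - z| * |z| ^ j ≤ |g - z| * 1 := by
            gcongr; exact pow_le_one₀ (abs_nonneg _) hz
        _ = _ := mul_one _
    calc |g * (g ^ j - z ^ j) + (g - z) * z ^ j|
        ≤ |g * (g ^ j - z ^ j)| + |(g - z) * z ^ j| := abs_add_le _ _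
      _ ≤ j * |g - z| + |g - z| := add_le_add h1 h2
      _ = ((j + 1 : ℕ) : ℝ) * |g - z| := by push_cast; ring

private theorem pow_taylor (g z : ℝ) (hg : |g| ≤ 1) (hz : |z| ≤ 1) (j : ℕ) :
    |g ^ j - z ^ j - j * z ^ (j - 1) * (g - z)| ≤ (j : ℝ) ^ 2 * |g - z| ^ 2 := by
  induction j with
  | zero => simp
  | succ j ih =>
    have e : g ^ (j + 1) - z ^ (j + 1) - ((j + 1 : ℕ) : ℝ) * z ^ (j + 1 - 1) * (g - z) =
        g * (g ^ j - z ^ j - j * z ^ (j - 1) * (g - z)) + j * z ^ (j - 1) * (g - z) ^ 2 := by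
      rcases j with _ | j
      · simp
      · have h1 : j + 1 + 1 - 1 = j + 1 := rfl
        have h2 : j + 1 - 1 = j := rfl
        rw [h1, h2]
        push_cast
        ring
    rw [e]
    have h1 : |g * (g ^ j - z ^ j - j * z ^ (j - 1) * (g - z))| ≤ (j : ℝ) ^ 2 * |g - z| ^ 2 := by
      rw [abs_mul]
      calc |g| * |g ^ j - z ^ j - j * z ^ (j - 1) * (g - z)|
          ≤ 1 * |g ^ j - z ^ j - j * z ^ (j - 1) * (g - z)| := by gcongr
        _ ≤ _ := by rw [one_mul]; exact ih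
    have h2 : |(j : ℝ) * z ^ (j - 1) * (g - z) ^ 2| ≤ (j : ℝ) * |g - z| ^ 2 := by
      rw [abs_mul, abs_mul, abs_pow, abs_pow, abs_of_nonneg (Nat.cast_nonneg j : (0:ℝ) ≤ j)]
      calc (j : ℝ) * |z| ^ (j - 1) * |g - z| ^ 2 ≤ (j : ℝ) * 1 * |g - z| ^ 2 := by
            gcongr; exact pow_le_one₀ (abs_nonneg _) hz
        _ = _ := by rw [mul_one]
    calc _ ≤ |g * (g ^ j - z ^ j - j * z ^ (j - 1) * (g - z))|
          + |(j : ℝ) * z ^ (j - 1) * (g - z) ^ 2| := abs_add_le _ _
      _ ≤ (j : ℝ) ^ 2 * |g - z| ^ 2 + (j : ℝ) * |g - z| ^ 2 := add_le_add h1 h2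
      _ ≤ ((j + 1 : ℕ) : ℝ) ^ 2 * |g - z| ^ 2 := by
          push_cast
          nlinarith [sq_nonneg (|g - z|), (Nat.cast_nonneg j : (0:ℝ) ≤ j),
            mul_nonneg (Nat.cast_nonneg j : (0:ℝ) ≤ j) (sq_nonneg (|g - z|))]

private theorem cube_le (n : ℕ) : ((n : ℝ) + 1) * (n : ℝ) ^ 2 ≤ 8 ^ n := by
  have h1 : ((n : ℝ) + 1) ≤ 2 ^ n := by
    exact_mod_cast Nat.succ_le_of_lt (Nat.lt_two_pow_self (n := n))
  have h2 : (n : ℝ) ≤ 2 ^ n := by linarith
  have h0 : (0 : ℝ) ≤ n := Nat.cast_nonneg n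
  calc ((n : ℝ) + 1) * (n : ℝ) ^ 2 ≤ 2 ^ n * (2 ^ n) ^ 2 := by gcongr
    _ = 8 ^ n := by
      rw [← pow_mul, ← pow_add, show (8 : ℝ) = 2 ^ 3 by norm_num, ← pow_mul]
      congr 1; ring

private theorem rp_taylor (n H : ℕ) (F : ℕ → ℕ → ℤ) (hF : ∀ j ≤ n, |F (n - j) j| ≤ (H : ℤ))
    (g z : ℝ) (hg : |g| ≤ 1) (hz : |z| ≤ 1) :
    |rp n F g - rp n F z - rd n F z * (g - z)| ≤ 8 ^ n * H * |g - z| ^ 2 := by
  have e : rp n F g - rp n F z - rd n F z * (g - z) =
      ∑ j ∈ range (n + 1), (F (n - j) j : ℝ) * (g ^ j - z ^ j - j * z ^ (j - 1) * (g - z)) := by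
    unfold rp rd
    rw [← Finset.sum_sub_distrib, Finset.sum_mul, ← Finset.sum_sub_distrib]
    refine Finset.sum_congr rfl fun j _ => ?_
    ring
  rw [e]
  calc _ ≤ ∑ j ∈ range (n + 1), |(F (n - j) j : ℝ) * (g ^ j - z ^ j - j * z ^ (j - 1) * (g - z))| :=
        Finset.abs_sum_le_sum_abs _ _
    _ ≤ ∑ j ∈ range (n + 1), (H : ℝ) * ((n : ℝ) ^ 2 * |g - z| ^ 2) := by
        refine Finset.sum_le_sum fun j hj => ?_
        have hj' : j ≤ n := by simpa [Nat.lt_succ_iff] using hj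
        rw [abs_mul]
        have h1 : |(F (n - j) j : ℝ)| ≤ H := by
          have := hF j hj'
          have h2 : (((|F (n - j) j| : ℤ)) : ℝ) ≤ ((H : ℤ) : ℝ) := by exact_mod_cast this
          simpa using h2
        have h3 : (j : ℝ) ≤ n := by exact_mod_cast hj'
        calc _ ≤ (H : ℝ) * ((j : ℝ) ^ 2 * |g - z| ^ 2) := by
              gcongr
              exact pow_taylor g z hg hz j
          _ ≤ _ := by gcongr
    _ = (((n : ℝ) + 1) * (n : ℝ) ^ 2) * H * |g - z| ^ 2 := by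
        rw [Finset.sum_const, Finset.card_range, nsmul_eq_mul]; push_cast; ring
    _ ≤ _ := by
        gcongr
        exact cube_le n

private theorem rd_diff (n H : ℕ) (F : ℕ → ℕ → ℤ) (hF : ∀ j ≤ n, |F (n - j) j| ≤ (H : ℤ))
    (g z : ℝ) (hg : |g| ≤ 1) (hz : |z| ≤ 1) :
    |rd n F g - rd n F z| ≤ 8 ^ n * H * |g - z| := by
  have e : rd n F g - rd n F z =
      ∑ j ∈ range (n + 1), (F (n - j) j : ℝ) * (j * (g ^ (j - 1) - z ^ (j - 1))) := by
    unfold rd
    rw [← Finset.sum_sub_distrib]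
    refine Finset.sum_congr rfl fun j _ => ?_
    ring
  rw [e]
  calc _ ≤ ∑ j ∈ range (n + 1), |(F (n - j) j : ℝ) * (j * (g ^ (j - 1) - z ^ (j - 1)))| :=
        Finset.abs_sum_le_sum_abs _ _
    _ ≤ ∑ j ∈ range (n + 1), (H : ℝ) * ((n : ℝ) * ((n : ℝ) * |g - z|)) := by
        refine Finset.sum_le_sum fun j hj => ?_
        have hj' : j ≤ n := by simpa [Nat.lt_succ_iff] using hj
        rw [abs_mul, abs_mul, abs_of_nonneg (Nat.cast_nonneg j : (0:ℝ) ≤ j)]
        have h1 : |(F (n - j) j : ℝ)| ≤ H := by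
          have := hF j hj'
          have h2 : (((|F (n - j) j| : ℤ)) : ℝ) ≤ ((H : ℤ) : ℝ) := by exact_mod_cast this
          simpa using h2
        have h3 : (j : ℝ) ≤ n := by exact_mod_cast hj'
        have h4 : (((j - 1 : ℕ)) : ℝ) ≤ n := by exact_mod_cast (by omega : j - 1 ≤ n)
        have h5 : |g ^ (j - 1) - z ^ (j - 1)| ≤ (n : ℝ) * |g - z| :=
          (pow_diff g z hg hz (j - 1)).trans (by gcongr)
        gcongr
    _ = (((n : ℝ) + 1) * (n : ℝ) ^ 2) * H * |g - z| := by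
        rw [Finset.sum_const, Finset.card_range, nsmul_eq_mul]; push_cast; ring
    _ ≤ _ := by
        gcongr
        exact cube_le n

/-- grid point -/
private theorem exists_grid (n : ℕ) (H : ℕ) (M : ℝ) (hM : 1 ≤ M)
    (F : ℕ → ℕ → ℤ) (hF : ∀ j ≤ n, |F (n - j) j| ≤ (H : ℤ)) (h : ¬ Simp n H M F) :
    ∃ k ∈ Finset.Icc (-(⌈M⌉₊ : ℤ)) (⌈M⌉₊ : ℤ),
      |rp n F (k / ⌈M⌉₊)| ≤ (2 + 8 ^ n) * (H / M ^ 2) ∧
      |rd n F (k / ⌈M⌉₊)| ≤ (1 + 8 ^ n) * (H / M) := by
  unfold Simp at h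
  push Not at h
  obtain ⟨z, hz, h1, h2⟩ := h
  rw [hp_eval] at h1
  rw [hp_deriv] at h2
  have hM0 : 0 < M := by linarith
  set N : ℕ := ⌈M⌉₊ with hN
  have hNM : M ≤ N := Nat.le_ceil M
  have hN0 : (0 : ℝ) < N := by linarith
  obtain ⟨hz1, hz2⟩ := abs_le.mp hz
  have k1 : (⌊z * N⌋ : ℝ) ≤ z * N := Int.floor_le _
  have k2 : z * N < ⌊z * N⌋ + 1 := Int.lt_floor_add_one _
  have hk1 : -(N : ℤ) ≤ ⌊z * N⌋ := by
    rw [Int.le_floor]; push_cast; nlinarith
  have hk2 : ⌊z * N⌋ ≤ (N : ℤ) := by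
    have : (⌊z * N⌋ : ℝ) ≤ ((N : ℤ) : ℝ) := by push_cast; nlinarith
    exact_mod_cast this
  set g : ℝ := (⌊z * N⌋ : ℝ) / N with hgdef
  have hg : |g| ≤ 1 := by
    rw [hgdef, abs_le]
    have hk1' : -(N : ℝ) ≤ ⌊z * N⌋ := by exact_mod_cast hk1
    have hk2' : (⌊z * N⌋ : ℝ) ≤ N := by exact_mod_cast hk2
    constructor
    · rw [le_div_iff₀ hN0]; linarith
    · rw [div_le_one hN0]; exact hk2'
  have hgz : |g - z| ≤ 1 / M := by
    have : |g - z| ≤ 1 / N := by
      rw [hgdef, abs_le]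
      constructor
      · rw [neg_le_sub_iff_le_add, ← add_div, le_div_iff₀ hN0]; linarith
      · rw [sub_le_iff_le_add, div_le_iff₀ hN0, add_mul, one_div, inv_mul_cancel₀ hN0.ne']
        linarith
    exact this.trans (one_div_le_one_div_of_le hM0 hNM)
  have t1 := rp_taylor n H F hF g z hg hz
  have t2 := rd_diff n H F hF g z hg hz
  have hH : (0 : ℝ) ≤ H := Nat.cast_nonneg H
  refine ⟨⌊z * N⌋, Finset.mem_Icc.2 ⟨hk1, hk2⟩, ?_, ?_⟩
  · have e : rp n F g = (rp n F g - rp n F z - rd n F z * (g - z)) + rp n F z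
        + rd n F z * (g - z) := by ring
    rw [e]
    calc _ ≤ |(rp n F g - rp n F z - rd n F z * (g - z))| + |rp n F z|
          + |rd n F z * (g - z)| := by
            refine (abs_add_le _ _).trans ?_
            gcongr
            exact abs_add_le _ _
      _ ≤ 8 ^ n * H * (1 / M) ^ 2 + H / M ^ 2 + H / M * (1 / M) := by
          rw [abs_mul]
          gcongr
          exact t1.trans (by gcongr)
      _ = _ := by field_simp; ring
  · have e : rd n F g = (rd n F g - rd n F z) + rd n F z := by ring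
    rw [e]
    calc _ ≤ |rd n F g - rd n F z| + |rd n F z| := abs_add_le _ _
      _ ≤ 8 ^ n * H * (1 / M) + H / M := by
          gcongr
          exact t2.trans (by gcongr)
      _ = _ := by field_simp; ring

/-- at most `A * B` elements when `u` takes at most `A` values and `v` at most `B` values for each
`u` -/
private theorem card_two {α : Type*} [DecidableEq α] (T : Finset α) (u : α → ℤ) (A B : ℝ)
    (hB : 0 ≤ B) (hA : ((T.image u).card : ℝ) ≤ A)
    (h : ∀ x ∈ T.image u, ((T.filter fun a => u a = x).card : ℝ) ≤ B) :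
    (T.card : ℝ) ≤ A * B := by
  have h1 := Finset.card_eq_sum_card_fiberwise (f := u) (s := T) (t := T.image u)
    (fun a ha => Finset.mem_image_of_mem u ha)
  rw [h1]
  push_cast
  calc _ ≤ ∑ x ∈ T.image u, B := Finset.sum_le_sum fun x hx => h x hx
    _ = ((T.image u).card : ℝ) * B := by rw [Finset.sum_const, nsmul_eq_mul]
    _ ≤ A * B := by gcongr

theorem simp_count (n : ℕ) (hn : 1 ≤ n) (H : ℕ) (M : ℝ) (hM : 1 ≤ M) (hMH : M ^ 2 ≤ H)
    (S : Finset (Ix n → ℤ))
    (hS : ∀ a ∈ S, (∀ i, |a i| ≤ (H : ℤ)) ∧ ¬ Simp n H M (arr a)) :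
    (S.card : ℝ) ≤ 8 ^ (3 * n + 2) * (2 * H + 1 : ℝ) ^ (Fintype.card (Ix n)) / M ^ 2 := by
  classical
  have hM0 : 0 < M := by linarith
  set b : ℝ := 8 ^ n with hb
  have hb8 : (8 : ℝ) ≤ b := by
    rw [hb]; calc (8 : ℝ) = 8 ^ 1 := by norm_num
      _ ≤ 8 ^ n := pow_le_pow_right₀ (by norm_num) hn
  have hH1 : (1 : ℝ) ≤ H := by nlinarith
  set iv : Ix n := ix n n 0 (by omega) with hiv
  set iu : Ix n := ix n (n - 1) 1 (by omega) with hiu
  have hne : iv ≠ iu := by
    intro h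
    have := congrArg (fun q : Ix n => (q.1.2 : ℕ)) h
    simp [hiv, hiu, ix] at this
  set q1 : ℝ := H / M ^ 2 with hq1
  set q2 : ℝ := H / M with hq2
  have hq1' : 1 ≤ q1 := by rw [hq1, le_div_iff₀ (by positivity)]; linarith
  have hq12 : q1 ≤ q2 := by
    rw [hq1, hq2]
    apply div_le_div_of_nonneg_left (by positivity) hM0
    nlinarith
  have key := fiber_count (fun i : Ix n => i = iv ∨ i = iu) H S (fun a ha => (hS a ha).1)
    (5 * M * (((2 * b + 3) * q2) * ((2 * b + 5) * q1))) (by positivity) ?_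
  · have hcard : Fintype.card {i : Ix n // ¬ (i = iv ∨ i = iu)} + 2 = Fintype.card (Ix n) := by
      have h1 := Fintype.card_subtype_compl (fun i : Ix n => i = iv ∨ i = iu)
      have h2 := Fintype.card_subtype_eq_or_eq_of_ne hne
      have h3 : Fintype.card {i : Ix n // i = iv ∨ i = iu} ≤ Fintype.card (Ix n) :=
        Fintype.card_subtype_le _
      rw [h1]
      omega
    refine key.trans ?_
    have hX : (0 : ℝ) < (2 * H + 1) ^ Fintype.card {i : Ix n // ¬ (i = iv ∨ i = iu)} := by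
      positivity
    set X : ℝ := (2 * H + 1) ^ Fintype.card {i : Ix n // ¬ (i = iv ∨ i = iu)} with hXd
    have hXX : (2 * H + 1 : ℝ) ^ (Fintype.card (Ix n)) = X * (2 * H + 1) ^ 2 := by
      rw [← hcard, pow_add]
    rw [hXX, le_div_iff₀ (by positivity)]
    have e1 : 5 * M * (((2 * b + 3) * q2) * ((2 * b + 5) * q1)) * X * M ^ 2 =
        5 * ((2 * b + 3) * (2 * b + 5)) * (H : ℝ) ^ 2 * X := by
      rw [hq1, hq2]; field_simp
    rw [e1]
    have e2 : (8 : ℝ) ^ (3 * n + 2) = 64 * b ^ 3 := by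
      rw [hb, pow_add, ← pow_mul]; ring
    rw [e2]
    have h1 : 5 * ((2 * b + 3) * (2 * b + 5)) ≤ 64 * b ^ 3 := by nlinarith [sq_nonneg b]
    have h2 : (H : ℝ) ^ 2 ≤ (2 * H + 1) ^ 2 := by nlinarith
    calc 5 * ((2 * b + 3) * (2 * b + 5)) * (H : ℝ) ^ 2 * X
        ≤ 64 * b ^ 3 * (2 * H + 1) ^ 2 * X := by gcongr
      _ = _ := by ring
  · intro c hc T hT
    set N : ℕ := ⌈M⌉₊ with hN
    -- cover by grid points
    set P : ℤ → (Ix n → ℤ) → Prop := fun k a =>
      |rp n (arr a) (k / N)| ≤ (2 + b) * q1 ∧ |rd n (arr a) (k / N)| ≤ (1 + b) * q2 with hP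
    have hcov : T ⊆ (Finset.Icc (-(N : ℤ)) N).biUnion (fun k => T.filter (P k)) := by
      intro a ha
      obtain ⟨haS, _⟩ := hT a ha
      obtain ⟨hb1, hb2⟩ := hS a haS
      have hF : ∀ j ≤ n, |arr a (n - j) j| ≤ (H : ℤ) := by
        intro j hj
        unfold arr
        rw [dif_pos (by omega)]
        exact hb1 _
      obtain ⟨k, hk, h1, h2⟩ := exists_grid n H M hM (arr a) hF hb2
      rw [Finset.mem_biUnion]
      exact ⟨k, hk, Finset.mem_filter.2 ⟨ha, h1, h2⟩⟩
    -- each grid point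
    have hone : ∀ k : ℤ, (((T.filter (P k)).card : ℕ) : ℝ) ≤
        ((2 * b + 3) * q2) * ((2 * b + 5) * q1) := by
      intro k
      set g : ℝ := (k : ℝ) / N with hg
      have hsplit : ∀ a : Ix n → ℤ, ∀ φ : ℕ → ℝ, ∑ j ∈ range (n + 1), (arr a (n - j) j : ℝ) * φ j =
          (a iv : ℝ) * φ 0 + (a iu : ℝ) * φ 1 +
            ∑ j ∈ (range (n + 1)).filter (fun j => 2 ≤ j), (arr a (n - j) j : ℝ) * φ j := by
        intro a φ
        have hr : (range (n + 1)).filter (fun j => ¬ 2 ≤ j) = {0, 1} := by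
          ext j; simp only [Finset.mem_filter, Finset.mem_range, Finset.mem_insert,
            Finset.mem_singleton]; omega
        rw [← Finset.sum_filter_not_add_sum_filter (range (n + 1)) (fun j => 2 ≤ j), hr,
          Finset.sum_pair (by norm_num)]
        have h0 : arr a (n - 0) 0 = a iv := by
          unfold arr; rw [dif_pos (by omega)]; rfl
        have h1 : arr a (n - 1) 1 = a iu := by
          unfold arr; rw [dif_pos (by omega)]
        rw [h0, h1]
      have hsame : ∀ a ∈ T, ∀ φ : ℕ → ℝ,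
          ∑ j ∈ (range (n + 1)).filter (fun j => 2 ≤ j), (arr a (n - j) j : ℝ) * φ j =
          ∑ j ∈ (range (n + 1)).filter (fun j => 2 ≤ j), (arr c (n - j) j : ℝ) * φ j := by
        intro a ha φ
        refine Finset.sum_congr rfl fun j hj => ?_
        have hj' : j ≤ n ∧ 2 ≤ j := by
          have := Finset.mem_filter.1 hj
          exact ⟨by have := Finset.mem_range.1 this.1; omega, this.2⟩
        have : arr a (n - j) j = arr c (n - j) j := by
          unfold arr
          rw [dif_pos (by omega), dif_pos (by omega)]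
          apply (hT a ha).2
          intro h
          rcases h with h | h
          · have := congrArg (fun q : Ix n => (q.1.2 : ℕ)) h
            simp [hiv, ix] at this; omega
          · have := congrArg (fun q : Ix n => (q.1.2 : ℕ)) h
            simp [hiu, ix] at this; omega
        rw [this]
      set D : ℝ := ∑ j ∈ (range (n + 1)).filter (fun j => 2 ≤ j),
        (arr c (n - j) j : ℝ) * (j * g ^ (j - 1)) with hD
      set E : ℝ := ∑ j ∈ (range (n + 1)).filter (fun j => 2 ≤ j),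
        (arr c (n - j) j : ℝ) * g ^ j with hE
      have hrd : ∀ a ∈ T, rd n (arr a) g = a iu + D := by
        intro a ha
        unfold rd
        rw [hsplit a (fun j => (j : ℝ) * g ^ (j - 1)), hsame a ha]
        simp [hD]
      have hrp : ∀ a ∈ T, rp n (arr a) g = a iv + (a iu * g + E) := by
        intro a ha
        unfold rp
        rw [hsplit a (fun j => g ^ j), hsame a ha]
        simp [hE]; ring
      refine card_two (T.filter (P k)) (fun a => a iu) _ _ (by positivity) ?_ ?_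
      · have := card_int_ball ((T.filter (P k)).image (fun a => a iu)) (-D) ((1 + b) * q2)
          (by positivity) ?_
        · refine this.trans ?_
          nlinarith
        · intro v hv
          obtain ⟨a, ha, rfl⟩ := Finset.mem_image.1 hv
          obtain ⟨haT, _, h2⟩ := Finset.mem_filter.1 ha
          rw [hrd a haT] at h2
          simpa [sub_neg_eq_add] using h2
      · intro x hx
        set R := (T.filter (P k)).filter (fun a => a iu = x) with hR
        have hcardR : R.card = (R.image (fun a => a iv)).card := by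
          symm
          apply Finset.card_image_of_injOn
          intro a ha a' ha' hv
          have ha1 := Finset.mem_filter.1 ha
          have ha2 := Finset.mem_filter.1 ha'
          have hTa := (Finset.mem_filter.1 ha1.1).1
          have hTa' := (Finset.mem_filter.1 ha2.1).1
          funext i
          by_cases hi : i = iv
          · rw [hi]; exact hv
          by_cases hi2 : i = iu
          · rw [hi2, ha1.2, ha2.2]
          · rw [(hT a hTa).2 i (by tauto), (hT a' hTa').2 i (by tauto)]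
        rw [hcardR]
        have := card_int_ball (R.image (fun a => a iv)) (-((x : ℝ) * g + E)) ((2 + b) * q1)
          (by positivity) ?_
        · refine this.trans ?_
          nlinarith
        · intro v hv
          obtain ⟨a, ha, rfl⟩ := Finset.mem_image.1 hv
          obtain ⟨ha1, ha2⟩ := Finset.mem_filter.1 ha
          obtain ⟨haT, h1, _⟩ := Finset.mem_filter.1 ha1
          rw [hrp a haT, ha2] at h1
          rw [sub_neg_eq_add]
          exact h1
    calc (T.card : ℝ) ≤ (((Finset.Icc (-(N : ℤ)) N).biUnion (fun k => T.filter (P k))).card : ℝ) := by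
          exact_mod_cast Finset.card_le_card hcov
      _ ≤ ∑ k ∈ Finset.Icc (-(N : ℤ)) N, (((T.filter (P k)).card : ℕ) : ℝ) := by
          exact_mod_cast Finset.card_biUnion_le
      _ ≤ ∑ k ∈ Finset.Icc (-(N : ℤ)) N, ((2 * b + 3) * q2) * ((2 * b + 5) * q1) :=
          Finset.sum_le_sum fun k _ => hone k
      _ = ((2 * N + 1 : ℝ)) * (((2 * b + 3) * q2) * ((2 * b + 5) * q1)) := by
          rw [Finset.sum_const, nsmul_eq_mul]
          congr 1
          have : (Finset.Icc (-(N : ℤ)) N).card = 2 * N + 1 := by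
            rw [Int.card_Icc]; omega
          rw [this]; push_cast; ring
      _ ≤ 5 * M * (((2 * b + 3) * q2) * ((2 * b + 5) * q1)) := by
          have hN2 : (N : ℝ) < M + 1 := Nat.ceil_lt_add_one (by linarith)
          gcongr
          linarith

/-- the same for the transposed array: apply `simp_count` to the image of `S` under the
permutation `(i,j) ↦ (j,i)` of the coordinates -/
theorem simp_count_tr (n : ℕ) (hn : 1 ≤ n) (H : ℕ) (M : ℝ) (hM : 1 ≤ M) (hMH : M ^ 2 ≤ H)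
    (S : Finset (Ix n → ℤ))
    (hS : ∀ a ∈ S, (∀ i, |a i| ≤ (H : ℤ)) ∧ ¬ Simp n H M (tr (arr a))) :
    (S.card : ℝ) ≤ 8 ^ (3 * n + 2) * (2 * H + 1 : ℝ) ^ (Fintype.card (Ix n)) / M ^ 2 := by
  classical
  let σ : Ix n → Ix n := fun q => ⟨(q.1.2, q.1.1), by
    have := q.2
    show (q.1.2 : ℕ) + (q.1.1 : ℕ) ≤ n
    omega⟩
  have hσ : ∀ q, σ (σ q) = q := fun q => rfl
  have harr : ∀ a : Ix n → ℤ, arr (fun q => a (σ q)) = tr (arr a) := by
    intro a
    funext i j
    unfold tr arr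
    by_cases h : i + j ≤ n
    · rw [dif_pos h, dif_pos (by omega)]; rfl
    · rw [dif_neg h, dif_neg (by omega)]
  have hinj : Function.Injective (fun (a : Ix n → ℤ) (q : Ix n) => a (σ q)) := by
    intro a a' h
    funext q
    have := congrFun h (σ q)
    simpa [hσ] using this
  have h1 := simp_count n hn H M hM hMH (S.image (fun (a : Ix n → ℤ) (q : Ix n) => a (σ q))) ?_
  · rwa [Finset.card_image_of_injective _ hinj] at h1
  · intro a' ha'
    obtain ⟨a, ha, rfl⟩ := Finset.mem_image.1 ha'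
    refine ⟨fun i => (hS a ha).1 _, ?_⟩
    rw [harr]
    exact (hS a ha).2

end Pool.Agent.H8.NoPt
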