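import Pool.Agent.H8.NoPt.Defs

/-! # [NP-BASIC] Elementary facts on arrays

`LeadIrr` gives `NZ` for `n ≥ 2`: if `f(u) = 0` with `u₁ ≠ 0` then `u₂/u₁` is a rational root of
the irreducible `lead n F` of degree `n ≥ 2`; if `u₁ = 0` the value is `F 0 n * u₂^n`.
The conditions `Simp`, `LeadIrr` only depend on the entries `F (n-j) j`. -/

namespace Pool.Agent.H8.NoPt

open Finset Polynomial Pool.Agent.H72.ES

theorem lead_coeff (n : ℕ) (F : ℕ → ℕ → ℤ) (j : ℕ) :
    (lead n F).coeff j = if j < n + 1 then F (n - j) j else 0 := by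
  rw [lead, finsetSum_coeff]
  simp only [coeff_C_mul_X_pow, sum_ite_eq, mem_range]

theorem LeadIrr.nz {n : ℕ} (hn : 2 ≤ n) {F : ℕ → ℕ → ℤ} (h : LeadIrr n F) : NZ n F := by
  intro u1 u2 hu h0
  obtain ⟨h1, h2⟩ := h
  by_cases hu1 : u1 = 0
  · subst hu1
    have hu2 : u2 ≠ 0 := by simpa using hu
    rw [sum_eq_single n] at h0
    · simp only [Nat.sub_self, pow_zero, mul_one] at h0
      rcases mul_eq_zero.1 h0 with h3 | h3
      · exact h1 h3
      · exact hu2 (pow_eq_zero_iff (by omega) |>.1 h3)
    · intro j hj hjn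
      rw [mem_range] at hj
      rw [zero_pow (by omega)]
      ring
    · intro hn'
      exact absurd (mem_range.2 (by omega)) hn'
  · have hu1' : (u1 : ℚ) ≠ 0 := by exact_mod_cast hu1
    have hroot : ((lead n F).map (Int.castRingHom ℚ)).IsRoot ((u2 : ℚ) / u1) := by
      rw [IsRoot.def, eval_map, lead, eval₂_finsetSum]
      simp only [eval₂_mul, eval₂_C, eval₂_X_pow]
      simp only [eq_intCast]
      have h3 : ((∑ j ∈ range (n + 1), F (n - j) j * u1 ^ (n - j) * u2 ^ j : ℤ) : ℚ) = 0 := by
        rw [h0]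
        simp
      push_cast at h3
      have h4 : ∀ j ∈ range (n + 1), (F (n - j) j : ℚ) * ((u2 : ℚ) / u1) ^ j * u1 ^ n =
          (F (n - j) j : ℚ) * u1 ^ (n - j) * u2 ^ j := by
        intro j hj
        rw [mem_range] at hj
        have h5 : (u1 : ℚ) ^ n = u1 ^ (n - j) * u1 ^ j := by
          rw [← pow_add]
          congr 1
          omega
        rw [h5, div_pow]
        field_simp
      have h6 : (∑ j ∈ range (n + 1), (F (n - j) j : ℚ) * ((u2 : ℚ) / u1) ^ j) * u1 ^ n = 0 := by
        rw [sum_mul, sum_congr rfl h4, h3]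
      rcases mul_eq_zero.1 h6 with h7 | h7
      · exact h7
      · exact absurd h7 (pow_ne_zero _ hu1')
    have hdeg : ((lead n F).map (Int.castRingHom ℚ)).natDegree = 1 := by
      have h3 := degree_eq_one_of_irreducible_of_root h2 hroot
      exact natDegree_eq_of_degree_eq_some h3
    have hcoef : ((lead n F).map (Int.castRingHom ℚ)).coeff n ≠ 0 := by
      rw [coeff_map, lead_coeff, if_pos (by omega)]
      simpa using h1
    have := le_natDegree_of_ne_zero hcoef
    omega

theorem NZ.tr {n : ℕ} {F : ℕ → ℕ → ℤ} (h : NZ n F) : NZ n (tr F) := by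
  intro u1 u2 hu h0
  refine h u2 u1 hu.symm ?_
  rw [← h0, ← sum_range_reflect]
  refine sum_congr rfl fun j hj => ?_
  rw [mem_range] at hj
  simp only [NoPt.tr]
  have h1 : n + 1 - 1 - j = n - j := by omega
  have h2 : n - (n - j) = j := by omega
  rw [h1, h2]
  ring

theorem ev_tr (n : ℕ) (F : ℕ → ℕ → ℤ) (x y : ℤ) : ev n (tr F) y x = ev n F x y := by
  unfold ev tr
  rw [sum_comm' (s := range (n + 1)) (t := fun i => range (n + 1 - i)) (t' := range (n + 1))
    (s' := fun j => range (n + 1 - j))]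
  · refine sum_congr rfl fun j _ => sum_congr rfl fun i _ => ?_
    ring
  · intro i j
    simp only [mem_range]
    omega

theorem lead_congr {n : ℕ} {F F' : ℕ → ℕ → ℤ} (h : ∀ i j, i + j = n → F i j = F' i j) :
    lead n F = lead n F' := by
  unfold lead
  refine sum_congr rfl fun j hj => ?_
  rw [mem_range] at hj
  rw [h (n - j) j (by omega)]

theorem Simp.congr {n H : ℕ} {M : ℝ} {F F' : ℕ → ℕ → ℤ} (h : ∀ i j, i + j = n → F i j = F' i j)
    (hs : Simp n H M F) : Simp n H M F' := by
  unfold Simp hp at hs ⊢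
  rwa [← lead_congr h]

theorem LeadIrr.congr {n : ℕ} {F F' : ℕ → ℕ → ℤ} (h : ∀ i j, i + j = n → F i j = F' i j)
    (hs : LeadIrr n F) : LeadIrr n F' := by
  unfold LeadIrr at hs ⊢
  rw [← lead_congr h, ← h 0 n (by omega)]
  exact hs

/-- splitting off the constant term -/
theorem ev_const {n : ℕ} (a : Ix n → ℤ) (x y : ℤ) :
    ev n (arr a) x y = a (ix n 0 0 (by omega)) +
      ev n (arr (Function.update a (ix n 0 0 (by omega)) 0)) x y := by
  have h0 : ∀ i j, i + j ≤ n → ((i = 0 ∧ j = 0) ∨
      arr (Function.update a (ix n 0 0 (by omega)) 0) i j = arr a i j) := by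
    intro i j hij
    by_cases hc : i = 0 ∧ j = 0
    · exact Or.inl hc
    · right
      unfold arr
      rw [dif_pos hij, dif_pos hij, Function.update_of_ne]
      intro he
      apply hc
      simp only [ix, Subtype.mk.injEq, Prod.mk.injEq, Fin.mk.injEq] at he
      exact he
  have h1 : arr a 0 0 = a (ix n 0 0 (by omega)) := by
    unfold arr
    rw [dif_pos (by omega)]
  have h2 : arr (Function.update a (ix n 0 0 (by omega)) 0) 0 0 = 0 := by
    unfold arr
    rw [dif_pos (by omega), Function.update_self]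
  unfold ev
  rw [← sub_eq_iff_eq_add, ← sum_sub_distrib]
  have h3 : ∀ i ∈ range (n + 1), (∑ j ∈ range (n + 1 - i), arr a i j * x ^ i * y ^ j) -
      ∑ j ∈ range (n + 1 - i),
        arr (Function.update a (ix n 0 0 (by omega)) 0) i j * x ^ i * y ^ j =
      if i = 0 then a (ix n 0 0 (by omega)) else 0 := by
    intro i hi
    rw [mem_range] at hi
    rw [← sum_sub_distrib]
    have h4 : ∀ j ∈ range (n + 1 - i), arr a i j * x ^ i * y ^ j -
        arr (Function.update a (ix n 0 0 (by omega)) 0) i j * x ^ i * y ^ j =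
        if j = 0 then (if i = 0 then a (ix n 0 0 (by omega)) else 0) else 0 := by
      intro j hj
      rw [mem_range] at hj
      rcases h0 i j (by omega) with ⟨rfl, rfl⟩ | h5
      · rw [h1, h2]
        simp
      · rw [h5]
        by_cases hc : i = 0 ∧ j = 0
        · obtain ⟨rfl, rfl⟩ := hc
          rw [h1, h2] at h5
          simp [← h5]
        · rw [sub_self]
          split_ifs with h6 h7
          · exact absurd ⟨h7, h6⟩ hc
          · rfl
          · rfl
    rw [sum_congr rfl h4, sum_ite_eq' (range (n + 1 - i)) 0]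
    rw [if_pos (mem_range.2 (by omega))]
  rw [sum_congr rfl h3, sum_ite_eq' (range (n + 1)) 0, if_pos (mem_range.2 (by omega))]

end Pool.Agent.H8.NoPt
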