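import Pool.Agent.H8.NoPt.Mid
import Pool.Agent.H8.NoPt.Basic

/-! # Integer points with `|G| ≤ H` for a typical array `G` -/

namespace Pool.Agent.H8.NoPt

open Finset Polynomial Pool.Agent.H72.ES

/-- statement of the theorem on large integer points (helper72) -/
def BigPts (n : ℕ) : Prop := ∀ H : ℕ, 2 ≤ H → ∀ G : ℕ → ℕ → ℤ, Bdd n H G → LeadIrr n G →
  ∀ S : Finset (ℤ × ℤ), (∀ P ∈ S, |ev n G P.1 P.2| ≤ (H : ℤ) ∧
    (H : ℤ) ^ (2500 * n ^ 4) < max |P.1| |P.2|) →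
  (S.card : ℝ) ≤ 1000 * n ^ 4 * (H : ℝ) ^ (1 / (n : ℝ))

theorem small_card (X : ℝ) (hX : 0 ≤ X) (S : Finset (ℤ × ℤ))
    (hS : ∀ P ∈ S, |(P.1 : ℝ)| ≤ X ∧ |(P.2 : ℝ)| ≤ X) : (S.card : ℝ) ≤ (2 * X + 1) ^ 2 := by
  set N : ℕ := ⌊X⌋₊ with hN
  have hsub : S ⊆ (Icc (-(N : ℤ)) N) ×ˢ (Icc (-(N : ℤ)) N) := by
    intro P hP
    have key : ∀ v : ℤ, |(v : ℝ)| ≤ X → v ∈ Icc (-(N : ℤ)) N := by
      intro v hv
      have h1 : ((v.natAbs : ℕ) : ℝ) ≤ X := by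
        rw [Nat.cast_natAbs]; push_cast; exact hv
      have h2 : v.natAbs ≤ N := Nat.le_floor h1
      rw [mem_Icc]; omega
    rw [mem_product]
    exact ⟨key _ (hS P hP).1, key _ (hS P hP).2⟩
  have hc := card_le_card hsub
  rw [card_product, Int.card_Icc] at hc
  have h3 : ((N : ℤ) + 1 - -(N : ℤ)).toNat = 2 * N + 1 := by omega
  rw [h3] at hc
  have h4 : (S.card : ℝ) ≤ (2 * N + 1 : ℝ) * (2 * N + 1) := by exact_mod_cast hc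
  have h5 : (N : ℝ) ≤ X := Nat.floor_le hX
  have h6 : (0 : ℝ) ≤ N := Nat.cast_nonneg _
  nlinarith

theorem Bdd.tr {n H : ℕ} {F : ℕ → ℕ → ℤ} (h : Bdd n H F) : Bdd n H (tr F) := fun i j hij =>
  h j i (by omega)

theorem typ_points (n : ℕ) (hn : 4 ≤ n) (hbig : BigPts n) : ∃ C : ℝ, 0 < C ∧
    ∀ H : ℕ, 2 ≤ H → ∀ M : ℝ, 1 ≤ M → ∀ F : ℕ → ℕ → ℤ, Bdd n H F → Simp n H M F →
    Simp n H M (tr F) → LeadIrr n F → ∀ S : Finset (ℤ × ℤ),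
    (∀ P ∈ S, |ev n F P.1 P.2| ≤ (H : ℤ)) →
    (S.card : ℝ) ≤ C * (M ^ 3 * Real.log H * (H : ℝ) ^ (1 / (n : ℝ)) + M ^ 4) := by
  classical
  set E : ℕ := 2500 * n ^ 4 with hE
  refine ⟨2000 * n ^ 4 + 2 * 8 ^ (7 * n) * (E + 2) + 9 * 8 ^ (6 * n), by positivity, ?_⟩
  intro H hH M hM F hF hS1 hS2 hI S hS
  set HR : ℝ := (H : ℝ) ^ (1 / (n : ℝ)) with hHR
  have hH2 : (2 : ℝ) ≤ H := by exact_mod_cast hH
  have hH1 : (1 : ℝ) ≤ H := by linarith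
  have hHR1 : 1 ≤ HR := Real.one_le_rpow hH1 (by positivity)
  have hNZ := hI.nz (by omega)
  set X0 : ℝ := (8 : ℝ) ^ (3 * n) * M ^ 2 with hX0
  have h8 : (1 : ℝ) ≤ (8 : ℝ) ^ (3 * n) := one_le_pow₀ (by norm_num)
  have hM2 : 1 ≤ M ^ 2 := one_le_pow₀ hM
  have hM3 : 1 ≤ M ^ 3 := one_le_pow₀ hM
  have hX01 : 1 ≤ X0 := by rw [hX0]; nlinarith
  have hlog : 1 / 2 ≤ Real.log H := by
    have h1 : Real.log 2 ≤ Real.log H := Real.log_le_log (by norm_num) hH2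
    have := Real.log_two_gt_d9
    linarith
  -- four parts
  set Sb := S.filter fun P => (H : ℤ) ^ E < max |P.1| |P.2| with hSb
  set Sx := S.filter fun P => |P.2| ≤ |P.1| ∧ X0 ≤ |(P.1 : ℝ)| ∧ |(P.1 : ℝ)| ≤ (H : ℝ) ^ E with hSx
  set Sy := S.filter fun P => |P.1| ≤ |P.2| ∧ X0 ≤ |(P.2 : ℝ)| ∧ |(P.2 : ℝ)| ≤ (H : ℝ) ^ E with hSy
  set Ss := S.filter fun P => |(P.1 : ℝ)| ≤ X0 ∧ |(P.2 : ℝ)| ≤ X0 with hSs
  have hcover : S ⊆ Sb ∪ (Sx ∪ (Sy ∪ Ss)) := by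
    intro P hP
    rw [mem_union, mem_union, mem_union, hSb, hSx, hSy, hSs]
    simp only [mem_filter, hP, true_and]
    by_cases h1 : (H : ℤ) ^ E < max |P.1| |P.2|
    · exact Or.inl h1
    right
    push Not at h1
    have h1x : |P.1| ≤ (H : ℤ) ^ E := (le_max_left _ _).trans h1
    have h1y : |P.2| ≤ (H : ℤ) ^ E := (le_max_right _ _).trans h1
    have h1x' : |(P.1 : ℝ)| ≤ (H : ℝ) ^ E := by exact_mod_cast h1x
    have h1y' : |(P.2 : ℝ)| ≤ (H : ℝ) ^ E := by exact_mod_cast h1y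
    rcases le_total |P.2| |P.1| with h2 | h2
    · have h2' : |(P.2 : ℝ)| ≤ |(P.1 : ℝ)| := by exact_mod_cast h2
      by_cases h3 : X0 ≤ |(P.1 : ℝ)|
      · exact Or.inl ⟨h2, h3, h1x'⟩
      · push Not at h3
        exact Or.inr (Or.inr ⟨h3.le, h2'.trans h3.le⟩)
    · have h2' : |(P.1 : ℝ)| ≤ |(P.2 : ℝ)| := by exact_mod_cast h2
      by_cases h3 : X0 ≤ |(P.2 : ℝ)|
      · exact Or.inr (Or.inl ⟨h2, h3, h1y'⟩)
      · push Not at h3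
        exact Or.inr (Or.inr ⟨h2'.trans h3.le, h3.le⟩)
  have hY1 : (1 : ℝ) ≤ (H : ℝ) ^ E := one_le_pow₀ hH1
  have b1 : (Sb.card : ℝ) ≤ 1000 * n ^ 4 * HR := by
    refine hbig H hH F hF hI Sb ?_
    intro P hP
    rw [hSb, mem_filter] at hP
    exact ⟨hS P hP.1, hP.2⟩
  have b2 : (Sx.card : ℝ) ≤ 8 ^ (7 * n) * M ^ 3 * (1 + Real.log ((H : ℝ) ^ E)) * HR := by
    refine mid_count (by omega) (by omega) hM hF hS1 hNZ _ hY1 Sx ?_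
    intro P hP
    rw [hSx, mem_filter] at hP
    exact ⟨hS P hP.1, hP.2.1, hP.2.2.1, hP.2.2.2⟩
  have b3 : (Sy.card : ℝ) ≤ 8 ^ (7 * n) * M ^ 3 * (1 + Real.log ((H : ℝ) ^ E)) * HR := by
    have h1 := mid_count (by omega) (by omega) hM hF.tr hS2 hNZ.tr _ hY1 (Sy.image Prod.swap) ?_
    · rwa [card_image_of_injective _ Prod.swap_injective] at h1
    intro P hP
    rw [mem_image] at hP
    obtain ⟨Q, hQ, rfl⟩ := hP
    rw [hSy, mem_filter] at hQ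
    refine ⟨?_, hQ.2.1, hQ.2.2.1, hQ.2.2.2⟩
    simp only [Prod.fst_swap, Prod.snd_swap]
    rw [ev_tr]
    exact hS Q hQ.1
  have b4 : (Ss.card : ℝ) ≤ (2 * X0 + 1) ^ 2 := by
    refine small_card X0 (by linarith) Ss ?_
    intro P hP
    rw [hSs, mem_filter] at hP
    exact hP.2
  have hsum : (S.card : ℝ) ≤ Sb.card + (Sx.card + (Sy.card + Ss.card)) := by
    have h1 := card_le_card hcover
    have h2 := card_union_le Sb (Sx ∪ (Sy ∪ Ss))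
    have h3 := card_union_le Sx (Sy ∪ Ss)
    have h4 := card_union_le Sy Ss
    exact_mod_cast (by omega : S.card ≤ Sb.card + (Sx.card + (Sy.card + Ss.card)))
  have hl : 1 + Real.log ((H : ℝ) ^ E) ≤ (E + 2) * Real.log H := by
    rw [Real.log_pow]
    have : (0 : ℝ) ≤ E := Nat.cast_nonneg _
    nlinarith
  have b2' : (Sx.card : ℝ) ≤ 8 ^ (7 * n) * (E + 2) * (M ^ 3 * Real.log H * HR) := by
    refine b2.trans ?_
    calc (8 : ℝ) ^ (7 * n) * M ^ 3 * (1 + Real.log ((H : ℝ) ^ E)) * HR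
        ≤ 8 ^ (7 * n) * M ^ 3 * ((E + 2) * Real.log H) * HR := by gcongr
      _ = _ := by ring
  have b3' : (Sy.card : ℝ) ≤ 8 ^ (7 * n) * (E + 2) * (M ^ 3 * Real.log H * HR) := by
    refine b3.trans ?_
    calc (8 : ℝ) ^ (7 * n) * M ^ 3 * (1 + Real.log ((H : ℝ) ^ E)) * HR
        ≤ 8 ^ (7 * n) * M ^ 3 * ((E + 2) * Real.log H) * HR := by gcongr
      _ = _ := by ring
  have b1' : (Sb.card : ℝ) ≤ 2000 * n ^ 4 * (M ^ 3 * Real.log H * HR) := by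
    refine b1.trans ?_
    have h1 : (1 : ℝ) ≤ 2 * (M ^ 3 * Real.log H) := by nlinarith
    calc 1000 * (n : ℝ) ^ 4 * HR = 1000 * n ^ 4 * HR * 1 := by ring
      _ ≤ 1000 * n ^ 4 * HR * (2 * (M ^ 3 * Real.log H)) := by gcongr
      _ = _ := by ring
  have b4' : (Ss.card : ℝ) ≤ 9 * 8 ^ (6 * n) * M ^ 4 := by
    refine b4.trans ?_
    calc (2 * X0 + 1) ^ 2 ≤ (2 * X0 + X0) ^ 2 := by gcongr
      _ = 9 * 8 ^ (6 * n) * M ^ 4 := by rw [hX0]; ring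
  have hT : 0 ≤ M ^ 3 * Real.log H * HR := by positivity
  have hM4 : 0 ≤ M ^ 4 := by positivity
  have p1 : (0 : ℝ) ≤ 2000 * n ^ 4 + 2 * 8 ^ (7 * n) * (E + 2) := by positivity
  have p2 : (0 : ℝ) ≤ 9 * 8 ^ (6 * n) := by positivity
  set T := M ^ 3 * Real.log H * HR with hTdef
  calc (S.card : ℝ) ≤ 2000 * n ^ 4 * T + (8 ^ (7 * n) * (E + 2) * T + (8 ^ (7 * n) * (E + 2) * T +
        9 * 8 ^ (6 * n) * M ^ 4)) := by linarith
    _ = (2000 * n ^ 4 + 2 * 8 ^ (7 * n) * (E + 2)) * T + 9 * 8 ^ (6 * n) * M ^ 4 := by ring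
    _ ≤ (2000 * n ^ 4 + 2 * 8 ^ (7 * n) * (E + 2) + 9 * 8 ^ (6 * n)) * T +
        (2000 * n ^ 4 + 2 * 8 ^ (7 * n) * (E + 2) + 9 * 8 ^ (6 * n)) * M ^ 4 :=
        add_le_add (mul_le_mul_of_nonneg_right (by linarith) hT)
          (mul_le_mul_of_nonneg_right (by linarith) hM4)
    _ = _ := by ring

end Pool.Agent.H8.NoPt
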