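import Pool.Agent.H8.NoPt.Defs

/-! # [NP-MV] Polynomials in two variables and their coefficient vectors

`toVec n F i = F.coeff (i.1.1, i.1.2)` (exponent vector `Finsupp.single 0 i + Finsupp.single 1 j`).
On `{F | totalDegree F ≤ n}` this is injective, `F = ∑ monomial`, and
`MvPolynomial.eval ![x,y] F = ev n (arr (toVec n F)) x y`. Every vector with entries in `[-H,H]` is
`toVec n F` for the polynomial `F = ∑_i monomial (..) (a i)`, of total degree `≤ n`; so the number
of `F` with `totalDegree F ≤ n` and all coefficients in `[-H,H]` is `(2H+1)^(card (Ix n))`. -/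

namespace Pool.Agent.H8.NoPt

open Finset Pool.Agent.H72.ES

/-- exponent vector of `x^i y^j` -/
noncomputable def expo (i j : ℕ) : Fin 2 →₀ ℕ := Finsupp.single 0 i + Finsupp.single 1 j

/-- vector of the coefficients -/
noncomputable def toVec (n : ℕ) (F : MvPolynomial (Fin 2) ℤ) : Ix n → ℤ :=
  fun i => F.coeff (expo i.1.1 i.1.2)

/-- polynomials of degree at most `n` with all coefficients in `[-H,H]` -/
def PolyBox (n H : ℕ) : Set (MvPolynomial (Fin 2) ℤ) :=
  {F | F.totalDegree ≤ n ∧ ∀ m, |F.coeff m| ≤ (H : ℤ)}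

theorem mv_expo_zero (i j : ℕ) : expo i j 0 = i := by simp [expo]

theorem mv_expo_one (i j : ℕ) : expo i j 1 = j := by simp [expo]

theorem mv_expo_eta (m : Fin 2 →₀ ℕ) : expo (m 0) (m 1) = m := by
  ext k
  fin_cases k
  · exact mv_expo_zero _ _
  · exact mv_expo_one _ _

theorem mv_expo_inj {i j i' j' : ℕ} (h : expo i j = expo i' j') : i = i' ∧ j = j' := by
  constructor
  · have := congrArg (fun m => m 0) h
    simpa only [mv_expo_zero] using this
  · have := congrArg (fun m => m 1) h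
    simpa only [mv_expo_one] using this

theorem mv_sum (m : Fin 2 →₀ ℕ) : (m.sum fun _ e => e) = m 0 + m 1 := by
  rw [Finsupp.sum_fintype _ _ (fun _ => rfl), Fin.sum_univ_two]

theorem mv_coeff_zero {n : ℕ} {F : MvPolynomial (Fin 2) ℤ} (hF : F.totalDegree ≤ n)
    {m : Fin 2 →₀ ℕ} (hm : n < m 0 + m 1) : F.coeff m = 0 := by
  by_contra h
  have h1 := MvPolynomial.le_totalDegree (MvPolynomial.mem_support_iff.2 h)
  rw [mv_sum] at h1
  omega

theorem mv_arr (n : ℕ) {F : MvPolynomial (Fin 2) ℤ} {i j : ℕ} (h : i + j ≤ n) :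
    arr (toVec n F) i j = F.coeff (expo i j) := by
  unfold arr
  rw [dif_pos h]
  rfl

theorem toVec_inj (n : ℕ) {F G : MvPolynomial (Fin 2) ℤ} (hF : F.totalDegree ≤ n)
    (hG : G.totalDegree ≤ n) (h : toVec n F = toVec n G) : F = G := by
  ext m
  by_cases hm : m 0 + m 1 ≤ n
  · have h1 := congrFun h (ix n (m 0) (m 1) hm)
    have h2 : F.coeff (expo (m 0) (m 1)) = G.coeff (expo (m 0) (m 1)) := h1
    rwa [mv_expo_eta] at h2
  · rw [mv_coeff_zero hF (by omega), mv_coeff_zero hG (by omega)]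

theorem eval_toVec (n : ℕ) {F : MvPolynomial (Fin 2) ℤ} (hF : F.totalDegree ≤ n) (x y : ℤ) :
    MvPolynomial.eval ![x, y] F = ev n (arr (toVec n F)) x y := by
  classical
  have hR : ev n (arr (toVec n F)) x y =
      ∑ p ∈ (range (n + 1)).sigma (fun i => range (n + 1 - i)),
        F.coeff (expo p.1 p.2) * ∏ k, (![x, y] k) ^ (expo p.1 p.2 k) := by
    unfold ev
    rw [Finset.sum_sigma]
    refine Finset.sum_congr rfl fun i hi => Finset.sum_congr rfl fun j hj => ?_
    rw [mem_range] at hi hj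
    rw [mv_arr n (by omega : i + j ≤ n), Fin.prod_univ_two, mv_expo_zero, mv_expo_one]
    simp only [Matrix.cons_val_zero, Matrix.cons_val_one]
    ring
  rw [hR, MvPolynomial.eval_eq']
  have hinj : Set.InjOn (fun p : (_ : ℕ) × ℕ => expo p.1 p.2)
      ((range (n + 1)).sigma (fun i => range (n + 1 - i)) : Set ((_ : ℕ) × ℕ)) := by
    rintro ⟨i, j⟩ _ ⟨i', j'⟩ _ h
    obtain ⟨h1, h2⟩ := mv_expo_inj h
    subst h1
    subst h2
    rfl
  rw [← Finset.sum_image (f := fun m : Fin 2 →₀ ℕ => F.coeff m * ∏ k, (![x, y] k) ^ (m k)) hinj]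
  refine Finset.sum_subset ?_ ?_
  · intro m hm
    rw [mem_image]
    refine ⟨⟨m 0, m 1⟩, ?_, mv_expo_eta m⟩
    rw [mem_sigma, mem_range, mem_range]
    have h1 := MvPolynomial.le_totalDegree hm
    rw [mv_sum] at h1
    constructor
    · show m 0 < n + 1
      omega
    · show m 1 < n + 1 - m 0
      omega
  · intro m _ hm
    rw [MvPolynomial.notMem_support_iff.1 hm, zero_mul]

/-- polynomial with given coefficients -/
noncomputable def mvPoly (n : ℕ) (a : Ix n → ℤ) : MvPolynomial (Fin 2) ℤ :=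
  ∑ i : Ix n, MvPolynomial.monomial (expo i.1.1 i.1.2) (a i)

theorem mv_ix_ext {n : ℕ} {i k : Ix n} (h : expo i.1.1 i.1.2 = expo k.1.1 k.1.2) : i = k := by
  obtain ⟨h1, h2⟩ := mv_expo_inj h
  exact Subtype.ext (Prod.ext (Fin.ext h1) (Fin.ext h2))

theorem mv_toVec_poly (n : ℕ) (a : Ix n → ℤ) : toVec n (mvPoly n a) = a := by
  classical
  funext k
  unfold toVec mvPoly
  rw [MvPolynomial.coeff_sum]
  rw [Finset.sum_eq_single k]
  · rw [MvPolynomial.coeff_monomial, if_pos rfl]
  · intro i _ hik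
    rw [MvPolynomial.coeff_monomial, if_neg fun h => hik (mv_ix_ext h)]
  · intro h
    exact absurd (mem_univ k) h

theorem mv_coeff_poly (n : ℕ) (a : Ix n → ℤ) (m : Fin 2 →₀ ℕ) :
    (mvPoly n a).coeff m = 0 ∨ ∃ k, (mvPoly n a).coeff m = a k := by
  classical
  by_cases h : ∃ k : Ix n, expo k.1.1 k.1.2 = m
  · obtain ⟨k, rfl⟩ := h
    right
    refine ⟨k, ?_⟩
    have := congrFun (mv_toVec_poly n a) k
    exact this
  · left
    unfold mvPoly
    rw [MvPolynomial.coeff_sum]
    refine Finset.sum_eq_zero fun i _ => ?_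
    rw [MvPolynomial.coeff_monomial, if_neg fun h1 => h ⟨i, h1⟩]

theorem mv_degree_poly (n : ℕ) (a : Ix n → ℤ) : (mvPoly n a).totalDegree ≤ n := by
  unfold mvPoly
  refine MvPolynomial.totalDegree_finsetSum_le fun i _ => ?_
  refine (MvPolynomial.totalDegree_monomial_le _ _).trans ?_
  have h := i.2
  change ((expo i.1.1 i.1.2).sum fun _ e => e) ≤ n
  rw [mv_sum, mv_expo_zero, mv_expo_one]
  exact h

/-- vectors with entries bounded by `H` -/
theorem mv_image (n H : ℕ) : toVec n '' PolyBox n H =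
    ((Fintype.piFinset fun _ : Ix n => Finset.Icc (-(H : ℤ)) H : Finset (Ix n → ℤ)) :
      Set (Ix n → ℤ)) := by
  ext a
  simp only [Set.mem_image, Finset.mem_coe, Fintype.mem_piFinset, Finset.mem_Icc]
  constructor
  · rintro ⟨F, hF, rfl⟩ i
    exact abs_le.1 (hF.2 _)
  · intro h
    refine ⟨mvPoly n a, ⟨mv_degree_poly n a, fun m => ?_⟩, mv_toVec_poly n a⟩
    rcases mv_coeff_poly n a m with h1 | ⟨k, h1⟩
    · rw [h1, abs_zero]
      exact Int.natCast_nonneg H
    · rw [h1]
      exact abs_le.2 (h k)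

theorem mv_injOn (n H : ℕ) : Set.InjOn (toVec n) (PolyBox n H) :=
  fun _ hF _ hG h => toVec_inj n hF.1 hG.1 h

theorem polyBox_ncard (n H : ℕ) :
    (PolyBox n H).ncard = (2 * H + 1) ^ (Fintype.card (Ix n)) := by
  rw [← Set.InjOn.ncard_image (mv_injOn n H), mv_image, Set.ncard_coe_finset,
    Fintype.card_piFinset]
  simp only [Int.card_Icc, Finset.prod_const, Finset.card_univ]
  congr 1
  omega

theorem polyBox_finite (n H : ℕ) : (PolyBox n H).Finite := by
  refine Set.Finite.of_finite_image ?_ (mv_injOn n H)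
  rw [mv_image]
  exact Finset.finite_toSet _

end Pool.Agent.H8.NoPt
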