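import Mathlib

/-! # [NP-GELF] Gelfond's height inequality from the Mahler measure

`|g_i| ≤ (deg g choose i) M(g) ≤ 2^(deg g) M(g)` (`norm_coeff_le_choose_mul_mahlerMeasure`), the
same for `h`; `M(g) M(h) = M(gh)` (`mahlerMeasure_mul`) `≤ ∑ |(gh)_k| ≤ (n+1) H`
(`mahlerMeasure_le_sum_norm_coeff`); `deg g + deg h = deg gh ≤ n`. -/

namespace Pool.Agent.H8.NoPt

open Polynomial

theorem gelf_coeff (g : ℤ[X]) (i : ℕ) :
    |(g.coeff i : ℝ)| ≤ 2 ^ g.natDegree * (g.map (Int.castRingHom ℂ)).mahlerMeasure := by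
  have h1 := norm_coeff_le_choose_mul_mahlerMeasure i (g.map (Int.castRingHom ℂ))
  rw [coeff_map, natDegree_map_eq_of_injective (Int.cast_injective)] at h1
  have h2 : ‖(Int.castRingHom ℂ) (g.coeff i)‖ = |(g.coeff i : ℝ)| := by
    simp
  rw [h2] at h1
  refine h1.trans (mul_le_mul_of_nonneg_right ?_ (mahlerMeasure_nonneg _))
  exact_mod_cast Nat.choose_le_two_pow _ _

theorem gelfond (n : ℕ) (g h : ℤ[X]) (hgh : g * h ≠ 0) (hn : (g * h).natDegree ≤ n) (H : ℝ)
    (hH : ∀ k, |((g * h).coeff k : ℝ)| ≤ H) (i j : ℕ) :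
    |(g.coeff i : ℝ)| * |(h.coeff j : ℝ)| ≤ 2 ^ n * (n + 1) * H := by
  have hg0 : g ≠ 0 := left_ne_zero_of_mul hgh
  have hh0 : h ≠ 0 := right_ne_zero_of_mul hgh
  have h1 := gelf_coeff g i
  have h2 := gelf_coeff h j
  have hM : (g.map (Int.castRingHom ℂ)).mahlerMeasure * (h.map (Int.castRingHom ℂ)).mahlerMeasure
      ≤ (n + 1) * H := by
    rw [← mahlerMeasure_mul, ← Polynomial.map_mul]
    refine (mahlerMeasure_le_sum_norm_coeff _).trans ?_
    rw [Polynomial.sum_over_range' _ (by simp) (n + 1) (by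
      rw [natDegree_map_eq_of_injective (Int.cast_injective)]; omega)]
    have h3 : ∀ k ∈ Finset.range (n + 1),
        ‖((g * h).map (Int.castRingHom ℂ)).coeff k‖ ≤ H := by
      intro k _
      rw [coeff_map]
      have := hH k
      simpa using this
    refine (Finset.sum_le_sum h3).trans ?_
    simp
  have hdeg : g.natDegree + h.natDegree ≤ n := by
    rw [← natDegree_mul hg0 hh0]
    exact hn
  have hMg := mahlerMeasure_nonneg (g.map (Int.castRingHom ℂ))
  have hMh := mahlerMeasure_nonneg (h.map (Int.castRingHom ℂ))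
  have hH0 : 0 ≤ H := (abs_nonneg _).trans (hH 0)
  calc |(g.coeff i : ℝ)| * |(h.coeff j : ℝ)|
      ≤ (2 ^ g.natDegree * (g.map (Int.castRingHom ℂ)).mahlerMeasure) *
        (2 ^ h.natDegree * (h.map (Int.castRingHom ℂ)).mahlerMeasure) :=
        mul_le_mul h1 h2 (abs_nonneg _) (by positivity)
    _ = 2 ^ (g.natDegree + h.natDegree) * ((g.map (Int.castRingHom ℂ)).mahlerMeasure *
        (h.map (Int.castRingHom ℂ)).mahlerMeasure) := by ring
    _ ≤ 2 ^ n * ((n + 1) * H) := by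
        refine mul_le_mul (pow_le_pow_right₀ (by norm_num) hdeg) hM (by positivity) (by positivity)
    _ = 2 ^ n * (n + 1) * H := by ring

end Pool.Agent.H8.NoPt
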