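import Pool.Agent.H72.ES.Defs

/-!
# Almost all plane curves of degree `n ≥ 4` have no integer point: definitions

Conventions of `Pool.Agent.H72.ES.Defs`: `F i j` is the coefficient of `x^i y^j`,
`ev n F x y = ∑_{i+j ≤ n} F i j x^i y^j`, `lead d F = ∑_{j ≤ d} F (d-j) j X^j` (the part of degree
`d`, dehomogenised), so `ev n F x (z x) = ∑_{d ≤ n} x^d * (lead d F)(z)`.
-/

namespace Pool.Agent.H8.NoPt

open Finset Polynomial Pool.Agent.H72.ES

/-- Index set of the monomials `x^i y^j` with `i + j ≤ n`. -/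
abbrev Ix (n : ℕ) : Type := {p : Fin (n + 1) × Fin (n + 1) // (p.1 : ℕ) + (p.2 : ℕ) ≤ n}

/-- index `(i,j)` -/
def ix (n i j : ℕ) (h : i + j ≤ n) : Ix n := ⟨(⟨i, by omega⟩, ⟨j, by omega⟩), h⟩

/-- coefficient vector to array -/
def arr {n : ℕ} (a : Ix n → ℤ) : ℕ → ℕ → ℤ := fun i j =>
  if h : i + j ≤ n then a (ix n i j h) else 0

/-- transposed array (exchange of `x` and `y`) -/
def tr (F : ℕ → ℕ → ℤ) : ℕ → ℕ → ℤ := fun i j => F j i

/-- coefficients bounded by `H` -/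
def Bdd (n H : ℕ) (F : ℕ → ℕ → ℤ) : Prop := ∀ i j, i + j ≤ n → |F i j| ≤ (H : ℤ)

/-- homogeneous part of degree `d`, dehomogenised, with complex coefficients -/
noncomputable def hp (d : ℕ) (F : ℕ → ℕ → ℤ) : ℂ[X] := (lead d F).map (Int.castRingHom ℂ)

/-- the leading form has no near double root in `[-1,1]` -/
def Simp (n H : ℕ) (M : ℝ) (F : ℕ → ℕ → ℤ) : Prop :=
  ∀ z : ℝ, |z| ≤ 1 → (H : ℝ) / M ^ 2 ≤ ‖(hp n F).eval (z : ℂ)‖ ∨
    (H : ℝ) / M ≤ ‖(derivative (hp n F)).eval (z : ℂ)‖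

/-- second coefficient of the asymptote `y = θ x + bet n F θ` -/
noncomputable def bet (n : ℕ) (F : ℕ → ℕ → ℤ) (θ : ℂ) : ℂ :=
  -(hp (n - 1) F).eval θ / (derivative (hp n F)).eval θ

/-- the leading form has no nontrivial integer zero -/
def NZ (n : ℕ) (F : ℕ → ℕ → ℤ) : Prop := ∀ u1 u2 : ℤ, (u1 ≠ 0 ∨ u2 ≠ 0) →
  ∑ j ∈ range (n + 1), F (n - j) j * u1 ^ (n - j) * u2 ^ j ≠ 0

/-- the leading form is irreducible over `ℚ` -/
def LeadIrr (n : ℕ) (F : ℕ → ℕ → ℤ) : Prop :=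
  F 0 n ≠ 0 ∧ Irreducible ((lead n F).map (Int.castRingHom ℚ))

end Pool.Agent.H8.NoPt
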