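import Pool.Agent.H8.NoPt.Count
import Pool.Agent.H8.NoPt.SimpC
import Pool.Agent.H8.NoPt.IrrC
import Pool.Agent.H8.NoPt.Mv

/-! # Assembly -/

namespace Pool.Agent.H8.NoPt

open Finset Polynomial Pool.Agent.H72.ES

theorem card_ix_pos (n : ℕ) : 0 < Fintype.card (Ix n) :=
  Fintype.card_pos_iff.mpr ⟨ix n 0 0 (by omega)⟩

theorem fiber_zero (n : ℕ) (hn : 4 ≤ n) (hbig : BigPts n) : ∃ C : ℝ, 0 < C ∧
    ∀ H : ℕ, 2 ≤ H → ∀ M : ℝ, 1 ≤ M → ∀ S : Finset (Ix n → ℤ),
    (∀ a ∈ S, (∀ i, |a i| ≤ (H : ℤ)) ∧ Simp n H M (arr a) ∧ Simp n H M (tr (arr a)) ∧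
      LeadIrr n (arr a) ∧ ∃ P : ℤ × ℤ, ev n (arr a) P.1 P.2 = 0) →
    (S.card : ℝ) ≤ C * (M ^ 3 * Real.log H * (H : ℝ) ^ (1 / (n : ℝ)) + M ^ 4) *
      (2 * H + 1 : ℝ) ^ (Fintype.card (Ix n) - 1) := by
  classical
  obtain ⟨C, hC, hcount⟩ := typ_points n hn hbig
  refine ⟨C, hC, ?_⟩
  intro H hH M hM S hS
  set o : Ix n := ix n 0 0 (by omega) with ho
  have hH1 : (1 : ℝ) ≤ H := by exact_mod_cast (by omega : 1 ≤ H)
  have hlog : 0 ≤ Real.log H := Real.log_nonneg hH1
  have hm0 : 0 ≤ C * (M ^ 3 * Real.log H * (H : ℝ) ^ (1 / (n : ℝ)) + M ^ 4) := by positivity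
  have hcard : Fintype.card {i : Ix n // ¬ i = o} = Fintype.card (Ix n) - 1 := by
    rw [Fintype.card_subtype_compl, Fintype.card_subtype_eq]
  rw [← hcard]
  refine fiber_count (fun i => i = o) H S (fun a ha => (hS a ha).1) _ hm0 ?_
  intro c hc T hT
  rcases T.eq_empty_or_nonempty with rfl | ⟨a0, ha0⟩
  · simpa using hm0
  set G : ℕ → ℕ → ℤ := arr (Function.update a0 o 0) with hG
  have hbase : ∀ a ∈ T, Function.update a o 0 = Function.update a0 o 0 := by
    intro a ha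
    funext i
    by_cases hi : i = o
    · subst hi; simp
    · rw [Function.update_of_ne hi, Function.update_of_ne hi, (hT a ha).2 i hi, (hT a0 ha0).2 i hi]
  have hz : ∀ a ∈ T, ∃ P : ℤ × ℤ, ev n (arr a) P.1 P.2 = 0 := fun a ha =>
    (hS a (hT a ha).1).2.2.2.2
  choose! P hP using hz
  have hval : ∀ a ∈ T, ev n G (P a).1 (P a).2 = - a o := by
    intro a ha
    have h1 := hP a ha
    rw [ev_const a (P a).1 (P a).2] at h1
    rw [← ho, hbase a ha, ← hG] at h1
    linarith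
  have hinj : Set.InjOn P T := by
    intro a ha b hb hab
    have h1 := hval a ha
    have h2 := hval b hb
    rw [hab, h2] at h1
    have h3 : a o = b o := by linarith
    funext i
    by_cases hi : i = o
    · rw [hi]; exact h3
    · rw [(hT a ha).2 i hi, (hT b hb).2 i hi]
  have hcongr : ∀ i j, i + j = n → arr a0 i j = G i j := by
    intro i j hij
    rw [hG]
    unfold arr
    rw [dif_pos hij.le, dif_pos hij.le, Function.update_of_ne]
    intro h
    have h1 := congrArg (fun t : Ix n => ((t.1.1 : ℕ), (t.1.2 : ℕ))) h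
    simp only [ho, ix, Prod.mk.injEq] at h1
    omega
  have hcongr' : ∀ i j, i + j = n → tr (arr a0) i j = tr G i j := fun i j hij =>
    hcongr j i (by omega)
  have hBdd : Bdd n H G := by
    intro i j hij
    rw [hG]
    unfold arr
    rw [dif_pos hij]
    by_cases h : ix n i j hij = o
    · rw [h]; simp
    · rw [Function.update_of_ne h]; exact (hS a0 (hT a0 ha0).1).1 _
  obtain ⟨_, s1, s2, s3, _⟩ := hS a0 (hT a0 ha0).1
  have h1 := hcount H hH M hM G hBdd (s1.congr hcongr) (s2.congr hcongr') (s3.congr hcongr)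
    (T.image P) ?_
  · rwa [card_image_of_injOn hinj] at h1
  · intro Q hQ
    rw [mem_image] at hQ
    obtain ⟨a, ha, rfl⟩ := hQ
    rw [hval a ha, abs_neg]
    exact (hS a (hT a ha).1).1 o

theorem log_le_rpow (H : ℝ) (hH : 1 ≤ H) : Real.log H ≤ 8 * H ^ ((1 : ℝ) / 8) := by
  have := Real.log_le_rpow_div (show 0 ≤ H by linarith) (show (0 : ℝ) < 1 / 8 by norm_num)
  linarith

open Classical in
/-- the main count for coefficient vectors -/
theorem vec_count (n : ℕ) (hn : 4 ≤ n) (hbig : BigPts n) : ∃ C : ℝ, 0 < C ∧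
    ∀ H : ℕ, 1 ≤ H → ∀ S : Finset (Ix n → ℤ),
    (∀ a ∈ S, (∀ i, |a i| ≤ (H : ℤ)) ∧ ∃ P : ℤ × ℤ, ev n (arr a) P.1 P.2 = 0) →
    (S.card : ℝ) ≤ C * (H : ℝ) ^ (-(1 / 4 : ℝ)) * (2 * H + 1 : ℝ) ^ (Fintype.card (Ix n)) := by
  obtain ⟨C1, hC1, hfib⟩ := fiber_zero n hn hbig
  obtain ⟨C2, hC2, hirr⟩ := irr_count n (by omega)
  refine ⟨9 * C1 + C2 + 2 * 8 ^ (3 * n + 2) + 1, by positivity, ?_⟩
  intro H hH S hS
  set D := Fintype.card (Ix n) with hD
  have hDpos : 0 < D := card_ix_pos n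
  set B : ℝ := (2 * H + 1 : ℝ) ^ D with hB
  have hB0 : 0 < B := by positivity
  rcases Nat.lt_or_ge H 2 with hH2 | hH2
  · -- `H = 1`
    have hH1 : H = 1 := by omega
    subst hH1
    have h1 : (S.card : ℝ) ≤ 1 * (2 * (1 : ℕ) + 1 : ℝ) ^ (Fintype.card {i : Ix n // ¬ False}) := by
      refine fiber_count (fun _ => False) 1 S (fun a ha => (hS a ha).1) 1 zero_le_one ?_
      intro c _ T hT
      have : T ⊆ {c} := by
        intro a ha
        rw [mem_singleton]
        funext i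
        exact (hT a ha).2 i (by simp)
      exact_mod_cast (card_le_card this).trans (card_singleton c).le
    have h2 : Fintype.card {i : Ix n // ¬ False} = D := by
      rw [hD]
      exact Fintype.card_congr (Equiv.subtypeUnivEquiv (by simp))
    rw [h2] at h1
    rw [one_mul, ← hB] at h1
    rw [Nat.cast_one, Real.one_rpow, mul_one]
    have h4 : (1 : ℝ) ≤ 9 * C1 + C2 + 2 * 8 ^ (3 * n + 2) + 1 := by
      have : (0 : ℝ) ≤ 2 * 8 ^ (3 * n + 2) := by positivity
      linarith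
    calc (S.card : ℝ) ≤ 1 * B := by rw [one_mul]; exact h1
      _ ≤ _ := by gcongr
  · have hH1 : (1 : ℝ) ≤ H := by exact_mod_cast (by omega : 1 ≤ H)
    have hHpos : (0 : ℝ) < H := by linarith
    set M : ℝ := (H : ℝ) ^ ((1 : ℝ) / 8) with hM
    have hM1 : 1 ≤ M := Real.one_le_rpow hH1 (by norm_num)
    have hMpow : ∀ k : ℕ, M ^ k = (H : ℝ) ^ ((k : ℝ) / 8) := by
      intro k
      rw [hM, ← Real.rpow_natCast, ← Real.rpow_mul hHpos.le]
      congr 1; ring
    set q : ℝ := (H : ℝ) ^ (-(1 / 4 : ℝ)) with hq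
    have hq0 : 0 < q := by positivity
    have hqM : q = 1 / M ^ 2 := by
      rw [hMpow, hq, Real.rpow_neg hHpos.le, one_div]
      norm_num
    have hMH : M ^ 2 ≤ H := by
      rw [hMpow]
      calc (H : ℝ) ^ (((2 : ℕ) : ℝ) / 8) ≤ (H : ℝ) ^ (1 : ℝ) :=
            Real.rpow_le_rpow_of_exponent_le hH1 (by norm_num)
        _ = H := Real.rpow_one _
    set S1 := S.filter fun a => ¬ Simp n H M (arr a) with hS1
    set S2 := S.filter fun a => ¬ Simp n H M (tr (arr a)) with hS2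
    set S3 := S.filter fun a => ¬ LeadIrr n (arr a) with hS3
    set S4 := S.filter fun a => Simp n H M (arr a) ∧ Simp n H M (tr (arr a)) ∧
      LeadIrr n (arr a) with hS4
    have hcover : S ⊆ S1 ∪ (S2 ∪ (S3 ∪ S4)) := by
      intro a ha
      rw [mem_union, mem_union, mem_union, hS1, hS2, hS3, hS4]
      simp only [mem_filter, ha, true_and]
      tauto
    have b1 : (S1.card : ℝ) ≤ 8 ^ (3 * n + 2) * B / M ^ 2 :=
      simp_count n (by omega) H M hM1 hMH S1 (fun a ha => by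
        rw [hS1, mem_filter] at ha; exact ⟨(hS a ha.1).1, ha.2⟩)
    have b2 : (S2.card : ℝ) ≤ 8 ^ (3 * n + 2) * B / M ^ 2 :=
      simp_count_tr n (by omega) H M hM1 hMH S2 (fun a ha => by
        rw [hS2, mem_filter] at ha; exact ⟨(hS a ha.1).1, ha.2⟩)
    have b3 : (S3.card : ℝ) ≤ C2 * B / Real.sqrt H :=
      hirr H hH S3 (fun a ha => by
        rw [hS3, mem_filter] at ha; exact ⟨(hS a ha.1).1, ha.2⟩)
    have b4 : (S4.card : ℝ) ≤ C1 * (M ^ 3 * Real.log H * (H : ℝ) ^ (1 / (n : ℝ)) + M ^ 4) *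
        (2 * H + 1 : ℝ) ^ (D - 1) :=
      hfib H hH2 M hM1 S4 (fun a ha => by
        rw [hS4, mem_filter] at ha
        exact ⟨(hS a ha.1).1, ha.2.1, ha.2.2.1, ha.2.2.2, (hS a ha.1).2⟩)
    have b1' : (S1.card : ℝ) ≤ 8 ^ (3 * n + 2) * q * B := by
      refine b1.trans (le_of_eq ?_)
      rw [hqM]; ring
    have b2' : (S2.card : ℝ) ≤ 8 ^ (3 * n + 2) * q * B := by
      refine b2.trans (le_of_eq ?_)
      rw [hqM]; ring
    have b3' : (S3.card : ℝ) ≤ C2 * q * B := by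
      refine b3.trans ?_
      have h1 : 1 / Real.sqrt H ≤ q := by
        rw [hqM]
        apply one_div_le_one_div_of_le (by positivity)
        rw [hMpow, Real.sqrt_eq_rpow]
        exact Real.rpow_le_rpow_of_exponent_le hH1 (by norm_num)
      calc C2 * B / Real.sqrt H = C2 * (1 / Real.sqrt H) * B := by ring
        _ ≤ C2 * q * B := by gcongr
    have b4' : (S4.card : ℝ) ≤ 9 * C1 * q * B := by
      refine b4.trans ?_
      set R : ℝ := (H : ℝ) ^ ((3 : ℝ) / 4) with hR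
      have hn4 : (4 : ℝ) ≤ n := by exact_mod_cast hn
      have t1 : (H : ℝ) ^ (1 / (n : ℝ)) ≤ (H : ℝ) ^ ((1 : ℝ) / 4) := by
        apply Real.rpow_le_rpow_of_exponent_le hH1
        exact one_div_le_one_div_of_le (by norm_num) hn4
      have t2 : M ^ 3 * Real.log H * (H : ℝ) ^ (1 / (n : ℝ)) ≤ 8 * R := by
        calc M ^ 3 * Real.log H * (H : ℝ) ^ (1 / (n : ℝ))
            ≤ M ^ 3 * (8 * (H : ℝ) ^ ((1 : ℝ) / 8)) * (H : ℝ) ^ ((1 : ℝ) / 4) := by
              have hl := log_le_rpow H hH1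
              have hl0 : 0 ≤ Real.log H := Real.log_nonneg hH1
              gcongr
          _ = 8 * R := by
              rw [hMpow, hR]
              have : (H : ℝ) ^ ((3 : ℝ) / 4) = (H : ℝ) ^ (((3 : ℕ) : ℝ) / 8) *
                  (H : ℝ) ^ ((1 : ℝ) / 8) * (H : ℝ) ^ ((1 : ℝ) / 4) := by
                rw [← Real.rpow_add hHpos, ← Real.rpow_add hHpos]
                norm_num
              rw [this]; ring
      have t3 : M ^ 4 ≤ R := by
        rw [hMpow, hR]
        exact Real.rpow_le_rpow_of_exponent_le hH1 (by norm_num)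
      have hR0 : 0 < R := by positivity
      have t4 : R * (2 * H + 1 : ℝ) ^ (D - 1) ≤ q * B := by
        have e1 : B = (2 * H + 1 : ℝ) ^ (D - 1) * (2 * H + 1) := by
          rw [hB, ← pow_succ, Nat.sub_add_cancel hDpos]
        have e2 : R = q * H := by
          rw [hR, hq]
          conv_rhs => rw [← Real.rpow_one (H : ℝ)]
          rw [← Real.rpow_mul hHpos.le, ← Real.rpow_add hHpos]
          norm_num
        rw [e1, e2]
        have e3 : (0 : ℝ) < (2 * H + 1 : ℝ) ^ (D - 1) := by positivity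
        calc q * H * (2 * H + 1 : ℝ) ^ (D - 1) = q * (2 * H + 1 : ℝ) ^ (D - 1) * H := by ring
          _ ≤ q * (2 * H + 1 : ℝ) ^ (D - 1) * (2 * H + 1) := by
              gcongr; linarith
          _ = _ := by ring
      calc C1 * (M ^ 3 * Real.log H * (H : ℝ) ^ (1 / (n : ℝ)) + M ^ 4) *
          (2 * H + 1 : ℝ) ^ (D - 1) ≤ C1 * (8 * R + R) * (2 * H + 1 : ℝ) ^ (D - 1) := by gcongr
        _ = 9 * C1 * (R * (2 * H + 1 : ℝ) ^ (D - 1)) := by ring
        _ ≤ 9 * C1 * (q * B) := by gcongr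
        _ = _ := by ring
    have hsum : (S.card : ℝ) ≤ S1.card + (S2.card + (S3.card + S4.card)) := by
      have h1 := card_le_card hcover
      have h2 := card_union_le S1 (S2 ∪ (S3 ∪ S4))
      have h3 := card_union_le S2 (S3 ∪ S4)
      have h4 := card_union_le S3 S4
      exact_mod_cast (by omega : S.card ≤ S1.card + (S2.card + (S3.card + S4.card)))
    have hqB : 0 ≤ q * B := by positivity
    calc (S.card : ℝ) ≤ S1.card + (S2.card + (S3.card + S4.card)) := hsum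
      _ ≤ 8 ^ (3 * n + 2) * q * B + (8 ^ (3 * n + 2) * q * B + (C2 * q * B + 9 * C1 * q * B)) := by
          gcongr
      _ ≤ (9 * C1 + C2 + 2 * 8 ^ (3 * n + 2) + 1) * q * B := by nlinarith

/-- the main count for polynomials -/
theorem poly_count (n : ℕ) (hn : 4 ≤ n) (hbig : BigPts n) : ∃ C : ℝ, ∀ H : ℕ, 1 ≤ H →
    (({F ∈ PolyBox n H | ∃ x y : ℤ, MvPolynomial.eval ![x, y] F = 0}.ncard : ℕ) : ℝ) ≤
      C * (H : ℝ) ^ (-(1 / 4 : ℝ)) * ((PolyBox n H).ncard : ℝ) := by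
  classical
  obtain ⟨C, _, hC⟩ := vec_count n hn hbig
  refine ⟨C, ?_⟩
  intro H hH
  set Z := {F ∈ PolyBox n H | ∃ x y : ℤ, MvPolynomial.eval ![x, y] F = 0} with hZ
  have hfin : Z.Finite := (polyBox_finite n H).subset (Set.sep_subset _ _)
  have hinj : Set.InjOn (toVec n) (hfin.toFinset : Set (MvPolynomial (Fin 2) ℤ)) := by
    intro F hF G hG h
    rw [Set.Finite.coe_toFinset] at hF hG
    exact toVec_inj n hF.1.1 hG.1.1 h
  have h1 := hC H hH (hfin.toFinset.image (toVec n)) ?_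
  · rw [card_image_of_injOn hinj] at h1
    rw [Set.ncard_eq_toFinset_card Z hfin, polyBox_ncard]
    push_cast
    exact h1
  · intro a ha
    rw [mem_image] at ha
    obtain ⟨F, hF, rfl⟩ := ha
    rw [Set.Finite.mem_toFinset] at hF
    obtain ⟨⟨hd, hc⟩, x, y, hxy⟩ := hF
    refine ⟨fun i => hc _, (x, y), ?_⟩
    rw [← eval_toVec n hd x y]
    exact hxy

end Pool.Agent.H8.NoPt
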